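import Mathlib

/-!
Weights with uniform marginals exist unless a simple counting obstruction holds (Hall).
-/

set_option autoImplicit false

namespace Pool.Agent.Y870.TB

open Finset

variable {m n : ℕ} {D : Finset (ℕ × ℕ)}

theorem exists_weights (hm : 0 < m) (hn : 0 < n) (hD : D ⊆ range m ×ˢ range n)
    (hall : ∀ I J : Finset ℕ, I ⊆ range m → J ⊆ range n → (∀ d ∈ D, d.1 ∈ I → d.2 ∈ J) →
      I.card * n ≤ J.card * m) :
    ∃ p : ℕ × ℕ → ℝ, (∀ d ∈ D, 0 ≤ p d) ∧
      (∀ j < n, ∑ d ∈ D with d.2 = j, p d = 1 / n) ∧
      (∀ i < m, ∑ d ∈ D with d.1 = i, p d = 1 / m) := by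
  classical
  set t : Fin m × Fin n → Finset (ℕ × ℕ) := fun x =>
    (range n ×ˢ range m).filter (fun y => (x.1.1, y.1) ∈ D) with ht
  have hHall : ∀ s : Finset (Fin m × Fin n), s.card ≤ (s.biUnion t).card := by
    intro s
    set I : Finset ℕ := s.image (fun x => x.1.1) with hI
    set J : Finset ℕ := (range n).filter (fun j => ∃ i ∈ I, (i, j) ∈ D) with hJ
    have h1 : s.card ≤ I.card * n := by
      have h2 : s.card ≤ (I ×ˢ range n).card := by
        refine card_le_card_of_injOn (fun x => (x.1.1, x.2.1)) ?_ ?_
        · intro x hx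
          rw [mem_coe] at hx
          rw [mem_coe, mem_product]
          exact ⟨mem_image_of_mem _ hx, mem_range.2 x.2.2⟩
        · intro x _ y _ hxy
          simp only [Prod.mk.injEq] at hxy
          exact Prod.ext (Fin.ext hxy.1) (Fin.ext hxy.2)
      rwa [card_product, card_range] at h2
    have h3 : s.biUnion t = J ×ˢ range m := by
      ext y
      rw [mem_biUnion, mem_product, hJ, mem_filter]
      constructor
      · rintro ⟨x, hx, hy⟩
        rw [ht] at hy
        simp only [mem_filter, mem_product] at hy
        exact ⟨⟨hy.1.1, x.1.1, mem_image_of_mem _ hx, hy.2⟩, hy.1.2⟩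
      · rintro ⟨⟨hy1, i, hi, hy2⟩, hy3⟩
        rw [hI, mem_image] at hi
        obtain ⟨x, hx, rfl⟩ := hi
        refine ⟨x, hx, ?_⟩
        rw [ht]
        simp only [mem_filter, mem_product]
        exact ⟨⟨hy1, hy3⟩, hy2⟩
    rw [h3, card_product, card_range]
    refine h1.trans (hall I J ?_ (filter_subset _ _) ?_)
    · intro i hi
      rw [hI, mem_image] at hi
      obtain ⟨x, _, rfl⟩ := hi
      exact mem_range.2 x.1.2
    · intro d hd hdI
      rw [hJ, mem_filter]
      have := hD hd
      rw [mem_product] at this
      exact ⟨this.2, d.1, hdI, hd⟩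
  obtain ⟨f, hf, hft⟩ := (Finset.all_card_le_biUnion_card_iff_exists_injective t).1 hHall
  have hft' : ∀ x, (f x).1 < n ∧ (f x).2 < m ∧ (x.1.1, (f x).1) ∈ D := by
    intro x
    have := hft x
    rw [ht] at this
    simp only [mem_filter, mem_product, mem_range] at this
    exact ⟨this.1.1, this.1.2, this.2⟩
  have himg : (univ : Finset (Fin m × Fin n)).image f = range n ×ˢ range m := by
    apply eq_of_subset_of_card_le
    · intro y hy
      rw [mem_image] at hy
      obtain ⟨x, _, rfl⟩ := hy
      rw [mem_product, mem_range, mem_range]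
      exact ⟨(hft' x).1, (hft' x).2.1⟩
    · rw [card_image_of_injective _ hf, card_product, card_range, card_range, card_univ,
        Fintype.card_prod, Fintype.card_fin, Fintype.card_fin, mul_comm]
  have hmR : (0 : ℝ) < m := by exact_mod_cast hm
  have hnR : (0 : ℝ) < n := by exact_mod_cast hn
  refine ⟨fun d => ((univ.filter (fun x : Fin m × Fin n => x.1.1 = d.1 ∧ (f x).1 = d.2)).card : ℝ)
    / (m * n), ?_, ?_, ?_⟩
  · intro d _
    positivity
  · intro j hj
    have e1 : ∑ d ∈ D with d.2 = j,
        (univ.filter (fun x : Fin m × Fin n => x.1.1 = d.1 ∧ (f x).1 = d.2)).card =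
        (univ.filter (fun x : Fin m × Fin n => (f x).1 = j)).card := by
      symm
      rw [card_eq_sum_card_fiberwise (f := fun x : Fin m × Fin n => (x.1.1, (f x).1))
        (t := D.filter (fun d => d.2 = j))]
      · apply sum_congr rfl
        intro d hd
        rw [mem_filter] at hd
        congr 1
        ext x
        simp only [mem_filter, mem_univ, true_and]
        constructor
        · rintro ⟨h1, h2⟩
          rw [← h2]
          exact ⟨rfl, rfl⟩
        · rintro ⟨h1, h2⟩
          exact ⟨h2.trans hd.2, Prod.ext h1 h2⟩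
      · intro x hx
        rw [mem_coe, mem_filter] at hx
        rw [mem_coe, mem_filter]
        exact ⟨(hft' x).2.2, hx.2⟩
    have e2 : (univ.filter (fun x : Fin m × Fin n => (f x).1 = j)).card = m := by
      have e3 : ((univ.filter (fun x : Fin m × Fin n => (f x).1 = j)).image f) =
          {j} ×ˢ range m := by
        ext y
        rw [mem_image, mem_product, mem_singleton, mem_range]
        constructor
        · rintro ⟨x, hx, rfl⟩
          rw [mem_filter] at hx
          exact ⟨hx.2, (hft' x).2.1⟩
        · rintro ⟨h1, h2⟩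
          have : y ∈ (univ : Finset (Fin m × Fin n)).image f := by
            rw [himg, mem_product, mem_range, mem_range, h1]
            exact ⟨hj, h2⟩
          rw [mem_image] at this
          obtain ⟨x, hx, rfl⟩ := this
          exact ⟨x, by rw [mem_filter]; exact ⟨mem_univ _, h1⟩, rfl⟩
      rw [← card_image_of_injective _ hf, e3, card_product, card_singleton, card_range, one_mul]
    rw [← sum_div]
    have e4 : ∑ d ∈ D with d.2 = j,
        ((univ.filter (fun x : Fin m × Fin n => x.1.1 = d.1 ∧ (f x).1 = d.2)).card : ℝ) = m := by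
      have e5 := e1.trans e2
      exact_mod_cast e5
    rw [e4]
    field_simp
  · intro i hi
    have e1 : ∑ d ∈ D with d.1 = i,
        (univ.filter (fun x : Fin m × Fin n => x.1.1 = d.1 ∧ (f x).1 = d.2)).card =
        (univ.filter (fun x : Fin m × Fin n => x.1.1 = i)).card := by
      symm
      rw [card_eq_sum_card_fiberwise (f := fun x : Fin m × Fin n => (x.1.1, (f x).1))
        (t := D.filter (fun d => d.1 = i))]
      · apply sum_congr rfl
        intro d hd
        rw [mem_filter] at hd
        congr 1
        ext x
        simp only [mem_filter, mem_univ, true_and]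
        constructor
        · rintro ⟨h1, h2⟩
          rw [← h2]
          exact ⟨rfl, rfl⟩
        · rintro ⟨h1, h2⟩
          exact ⟨h1.trans hd.2, Prod.ext h1 h2⟩
      · intro x hx
        rw [mem_coe, mem_filter] at hx
        rw [mem_coe, mem_filter]
        exact ⟨(hft' x).2.2, hx.2⟩
    have e2 : (univ.filter (fun x : Fin m × Fin n => x.1.1 = i)).card = n := by
      have e3 : (univ.filter (fun x : Fin m × Fin n => x.1.1 = i)) =
          {(⟨i, hi⟩ : Fin m)} ×ˢ (univ : Finset (Fin n)) := by
        ext x
        rw [mem_filter, mem_product, mem_singleton]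
        constructor
        · rintro ⟨_, h⟩
          exact ⟨Fin.ext h, mem_univ _⟩
        · rintro ⟨h, _⟩
          exact ⟨mem_univ _, by rw [h]⟩
      rw [e3, card_product, card_singleton, card_univ, Fintype.card_fin, one_mul]
    rw [← sum_div]
    have e4 : ∑ d ∈ D with d.1 = i,
        ((univ.filter (fun x : Fin m × Fin n => x.1.1 = d.1 ∧ (f x).1 = d.2)).card : ℝ) = n := by
      have e5 := e1.trans e2
      exact_mod_cast e5
    rw [e4]
    field_simp

end Pool.Agent.Y870.TB
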