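import Pool.Agent.Y870.TB.Cover

/-!
Carpets that can be covered by few vertical and horizontal tubes.
-/

set_option autoImplicit false

namespace Pool.Agent.Y870.TB

open Finset MeasureTheory
open Pool.Agent.W710.Tube (E2 cellMap IsCarpet cellMap_zero cellMap_one lineMap_coord
  dist_eq_one dist_eq_zero' mp01 mp10 abs_sub_le_dist)

/-- the number of the first `k` digits of `u` in base `b` that lie in `I` -/
def cnt (I : Finset ℕ) (b : ℕ) : ℕ → ℕ → ℕ
  | 0, _ => 0
  | k + 1, u => cnt I b k (u / b) + if u % b ∈ I then 1 else 0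

lemma cnt_succ (I : Finset ℕ) (b k u : ℕ) :
    cnt I b (k + 1) u = cnt I b k (u / b) + if u % b ∈ I then 1 else 0 := rfl

lemma second_moment {I : Finset ℕ} {b : ℕ} (hb : 0 < b) (hI : I ⊆ range b) (k : ℕ) :
    ∑ u ∈ range (b ^ k), ((cnt I b k u : ℝ) - k * (I.card / b)) ^ 2 ≤ k * (b : ℝ) ^ k := by
  have hbR : (0 : ℝ) < b := by exact_mod_cast hb
  set s : ℝ := (I.card : ℝ) / b with hs
  have hs0 : 0 ≤ s := by positivity
  have hs1 : s ≤ 1 := by
    rw [hs, div_le_one hbR]
    have := card_le_card hI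
    rw [card_range] at this
    exact_mod_cast this
  have hsum : ∑ i ∈ range b, ((if i ∈ I then (1 : ℝ) else 0) - s) = 0 := by
    rw [sum_sub_distrib, sum_const, card_range, nsmul_eq_mul, ← sum_filter]
    have e1 : (range b).filter (fun i => i ∈ I) = I := by
      ext i
      rw [mem_filter]
      exact ⟨fun h => h.2, fun h => ⟨hI h, h⟩⟩
    rw [e1, sum_const, nsmul_eq_mul, mul_one, hs]
    field_simp
    ring
  have hsq : ∑ i ∈ range b, ((if i ∈ I then (1 : ℝ) else 0) - s) ^ 2 ≤ b := by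
    calc ∑ i ∈ range b, ((if i ∈ I then (1 : ℝ) else 0) - s) ^ 2 ≤ ∑ _i ∈ range b, (1 : ℝ) := by
          apply sum_le_sum
          intro i _
          split_ifs
          · nlinarith
          · nlinarith
      _ = b := by simp
  induction k with
  | zero => simp [cnt]
  | succ k ih =>
    rw [pow_succ' b k, sum_range_mul]
    have e1 : ∀ x ∈ range (b ^ k), ∑ i ∈ range b,
        ((cnt I b (k + 1) (b * x + i) : ℝ) - ((k + 1 : ℕ) : ℝ) * s) ^ 2 =
        b * ((cnt I b k x : ℝ) - k * s) ^ 2 +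
          ∑ i ∈ range b, ((if i ∈ I then (1 : ℝ) else 0) - s) ^ 2 := by
      intro x _
      have e2 : ∀ i ∈ range b, ((cnt I b (k + 1) (b * x + i) : ℝ) - ((k + 1 : ℕ) : ℝ) * s) ^ 2 =
          ((cnt I b k x : ℝ) - k * s) ^ 2 +
            2 * ((cnt I b k x : ℝ) - k * s) * ((if i ∈ I then (1 : ℝ) else 0) - s) +
            ((if i ∈ I then (1 : ℝ) else 0) - s) ^ 2 := by
        intro i hi
        rw [mem_range] at hi
        rw [cnt_succ, Nat.mul_add_div hb, Nat.div_eq_of_lt hi, add_zero, Nat.mul_add_mod,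
          Nat.mod_eq_of_lt hi]
        push_cast
        ring
      rw [sum_congr rfl e2, sum_add_distrib, sum_add_distrib, ← mul_sum, hsum, sum_const,
        card_range, nsmul_eq_mul]
      ring
    rw [sum_congr rfl e1, sum_add_distrib, ← mul_sum, sum_const, card_range, nsmul_eq_mul]
    have h1 := mul_le_mul_of_nonneg_left ih hbR.le
    have h2 : ((b ^ k : ℕ) : ℝ) * ∑ i ∈ range b, ((if i ∈ I then (1 : ℝ) else 0) - s) ^ 2 ≤
        ((b ^ k : ℕ) : ℝ) * b := mul_le_mul_of_nonneg_left hsq (by positivity)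
    push_cast at h2 ⊢
    calc _ ≤ b * (k * (b : ℝ) ^ k) + (b : ℝ) ^ k * b := add_le_add h1 h2
      _ = _ := by ring

/-- few words have an atypical number of digits in `I` -/
lemma few_bad {I : Finset ℕ} {b : ℕ} (hb : 0 < b) (hI : I ⊆ range b) {dl : ℝ} (hdl : 0 < dl)
    (k : ℕ) (hk : 0 < k) (B : Finset ℕ) (hB : B ⊆ range (b ^ k))
    (hbad : ∀ u ∈ B, dl * k ≤ |(cnt I b k u : ℝ) - k * (I.card / b)|) :
    (B.card : ℝ) / (b : ℝ) ^ k ≤ 1 / (dl ^ 2 * k) := by
  have hbR : (0 : ℝ) < b := by exact_mod_cast hb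
  have hkR : (0 : ℝ) < k := by exact_mod_cast hk
  have h1 := second_moment hb hI k
  have h2 : (B.card : ℝ) * (dl * k) ^ 2 ≤ k * (b : ℝ) ^ k := by
    refine le_trans ?_ h1
    calc (B.card : ℝ) * (dl * k) ^ 2 = ∑ _u ∈ B, (dl * k) ^ 2 := by
          rw [sum_const, nsmul_eq_mul]
      _ ≤ ∑ u ∈ B, ((cnt I b k u : ℝ) - k * (I.card / b)) ^ 2 := by
          apply sum_le_sum
          intro u hu
          rw [← sq_abs ((cnt I b k u : ℝ) - k * (I.card / b))]
          exact pow_le_pow_left₀ (by positivity) (hbad u hu) 2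
      _ ≤ _ := sum_le_sum_of_subset_of_nonneg hB (fun _ _ _ => sq_nonneg _)
  rw [div_le_div_iff₀ (by positivity) (by positivity)]
  have h3 : (B.card : ℝ) * (dl * k) ^ 2 = ((B.card : ℝ) * (dl ^ 2 * k)) * k := by ring
  rw [h3] at h2
  have h4 : ((B.card : ℝ) * (dl ^ 2 * k)) * k ≤ (1 * (b : ℝ) ^ k) * k := by linarith
  exact le_of_mul_le_mul_right h4 hkR

variable {m n : ℕ} {D : Finset (ℕ × ℕ)}

/-- every point of the carpet lies in a rectangle of level `k` whose digits belong to `D` -/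
lemma exists_word (hm : 0 < m) (hn : 0 < n) (hD : D ⊆ range m ×ˢ range n) {F : Set E2}
    (hF : IsCarpet m n D F) {I J : Finset ℕ} (hIJ : ∀ d ∈ D, d.1 ∈ I → d.2 ∈ J) (k : ℕ) :
    ∀ z ∈ F, ∃ z' ∈ F, ∃ q : ℕ × ℕ, q.1 < m ^ k ∧ q.2 < n ^ k ∧ z = pt m n k z' q ∧
      cnt I m k q.1 ≤ cnt J n k q.2 := by
  have hmR : (0 : ℝ) < m := by exact_mod_cast hm
  have hnR : (0 : ℝ) < n := by exact_mod_cast hn
  induction k with
  | zero =>
    intro z hz
    refine ⟨z, hz, (0, 0), by simp, by simp, ?_, le_rfl⟩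
    ext i
    fin_cases i
    · simp [pt]
    · simp [pt]
  | succ k ih =>
    intro z hz
    obtain ⟨z', hz', q, h1, h2, h3, h4⟩ := ih z hz
    have h5 := hz'
    rw [hF.2.2] at h5
    simp only [Set.mem_iUnion, Set.mem_image] at h5
    obtain ⟨d, hd, z'', hz'', h6⟩ := h5
    have hd' := hD hd
    rw [mem_product, mem_range, mem_range] at hd'
    refine ⟨z'', hz'', (m * q.1 + d.1, n * q.2 + d.2), ?_, ?_, ?_, ?_⟩
    · simp only
      rw [pow_succ']
      calc m * q.1 + d.1 < m * q.1 + m := by omega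
        _ = m * (q.1 + 1) := by ring
        _ ≤ m * m ^ k := Nat.mul_le_mul_left _ h1
    · simp only
      rw [pow_succ']
      calc n * q.2 + d.2 < n * q.2 + n := by omega
        _ = n * (q.2 + 1) := by ring
        _ ≤ n * n ^ k := Nat.mul_le_mul_left _ h2
    · rw [h3, ← h6]
      ext i
      fin_cases i
      · show pt m n k (cellMap m n d z'') q 0 = pt m n (k + 1) z'' (m * q.1 + d.1, n * q.2 + d.2) 0
        rw [pt_zero, pt_zero, cellMap_zero, pow_succ]
        push_cast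
        field_simp
        ring
      · show pt m n k (cellMap m n d z'') q 1 = pt m n (k + 1) z'' (m * q.1 + d.1, n * q.2 + d.2) 1
        rw [pt_one, pt_one, cellMap_one, pow_succ]
        push_cast
        field_simp
        ring
    · simp only
      rw [cnt_succ, cnt_succ, Nat.mul_add_div hm, Nat.div_eq_of_lt hd'.1, add_zero, Nat.mul_add_mod,
        Nat.mod_eq_of_lt hd'.1, Nat.mul_add_div hn, Nat.div_eq_of_lt hd'.2, add_zero,
        Nat.mul_add_mod, Nat.mod_eq_of_lt hd'.2]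
      have := hIJ d hd
      split_ifs with a1 a2 a2
      · omega
      · exact absurd (this a1) a2
      · omega
      · omega

/-! ### vertical and horizontal tubes -/

/-- area of the `r`-neighbourhood of a unit segment parallel to an axis -/
lemma area_le (i j : Fin 2) (hij : ∀ z y : E2, |z i - y i| ≤ dist z y ∧ |z j - y j| ≤ dist z y)
    (hf : MeasurePreserving (fun z : E2 => (z i, z j)) volume volume) {P Q : E2} {a r : ℝ}
    (hP : P i = a) (hQ : Q i = a) (hP1 : P j = 0) (hQ1 : Q j = 1) (hr : 0 < r) (hr2 : r ≤ 2) :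
    volume (Metric.thickening r (segment ℝ P Q)) ≤ ENNReal.ofReal (10 * r) := by
  have hsub : Metric.thickening r (segment ℝ P Q) ⊆
      (fun z : E2 => (z i, z j)) ⁻¹' (Set.Ioo (a - r) (a + r) ×ˢ Set.Ioo (-r) (1 + r)) := by
    intro z hz
    rw [Metric.mem_thickening_iff] at hz
    obtain ⟨y, hy, hd⟩ := hz
    rw [segment_eq_image_lineMap] at hy
    obtain ⟨t, ⟨ht0, ht1⟩, rfl⟩ := hy
    obtain ⟨h1, h2⟩ := hij z (AffineMap.lineMap P Q t)
    rw [lineMap_coord, hP, hQ] at h1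
    rw [lineMap_coord, hP1, hQ1] at h2
    have h1' := abs_lt.1 (lt_of_le_of_lt h1 hd)
    have h2' := abs_lt.1 (lt_of_le_of_lt h2 hd)
    rw [Set.mem_preimage, Set.mem_prod, Set.mem_Ioo, Set.mem_Ioo]
    simp only
    refine ⟨⟨?_, ?_⟩, ?_, ?_⟩
    · linarith [h1'.1]
    · linarith [h1'.2]
    · linarith [h2'.1]
    · linarith [h2'.2]
  refine (measure_mono hsub).trans ?_
  rw [hf.measure_preimage (measurableSet_Ioo.prod measurableSet_Ioo).nullMeasurableSet,
    Measure.volume_eq_prod, Measure.prod_prod, Real.volume_Ioo, Real.volume_Ioo,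
    ← ENNReal.ofReal_mul (by linarith)]
  apply ENNReal.ofReal_le_ofReal
  nlinarith

lemma both_le (z y : E2) : |z 0 - y 0| ≤ dist z y ∧ |z 1 - y 1| ≤ dist z y :=
  ⟨abs_sub_le_dist z y 0, abs_sub_le_dist z y 1⟩

/-- a point near an axis-parallel unit segment -/
lemma mem_tube (i j : Fin 2) (hij : ∀ z y : E2, z j = y j → dist z y = |z i - y i|)
    {P Q z : E2} {a r : ℝ}
    (hP : P i = a) (hQ : Q i = a) (hP1 : P j = 0) (hQ1 : Q j = 1) (h0 : 0 ≤ z j) (h1 : z j ≤ 1)
    (h : |z i - a| < r) : z ∈ Metric.thickening r (segment ℝ P Q) := by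
  rw [Metric.mem_thickening_iff]
  refine ⟨AffineMap.lineMap P Q (z j), ?_, ?_⟩
  · rw [segment_eq_image_lineMap]
    exact ⟨_, ⟨h0, h1⟩, rfl⟩
  · rw [hij _ _ (by rw [lineMap_coord, hP1, hQ1]; ring), lineMap_coord, hP, hQ]
    have : a + z j * (a - a) = a := by ring
    rw [this]
    exact h

/-- **Few tubes.** If all cells of the columns of `I` lie in the rows of `J`, and `J` has a
smaller proportion of the rows than `I` of the columns, then the carpet is covered by
neighbourhoods of unit segments parallel to the axes with arbitrarily small total width. -/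
theorem few_tubes (hm : 2 ≤ m) (hn : 2 ≤ n) (hD : D ⊆ range m ×ˢ range n) {F : Set E2}
    (hF : IsCarpet m n D F) {I J : Finset ℕ} (hI : I ⊆ range m) (hJ : J ⊆ range n)
    (hIJ : ∀ d ∈ D, d.1 ∈ I → d.2 ∈ J) (hlt : J.card * m < I.card * n) (ε : ℝ) (hε : 0 < ε) :
    ∃ (ι : Type) (_ : Fintype ι) (P Q : ι → E2) (r : ι → ℝ),
      (∀ x, 0 < r x ∧ dist (P x) (Q x) = 1 ∧
        volume (Metric.thickening (r x) (segment ℝ (P x) (Q x))) ≤ ENNReal.ofReal (10 * r x)) ∧
      F ⊆ ⋃ x, Metric.thickening (r x) (segment ℝ (P x) (Q x)) ∧ ∑ x, r x < ε := by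
  classical
  have hm0 : 0 < m := by omega
  have hn0 : 0 < n := by omega
  have hmR : (2 : ℝ) ≤ m := by exact_mod_cast hm
  have hnR : (2 : ℝ) ≤ n := by exact_mod_cast hn
  set sI : ℝ := (I.card : ℝ) / m with hsI
  set sJ : ℝ := (J.card : ℝ) / n with hsJ
  have hs : sJ < sI := by
    rw [hsI, hsJ, div_lt_div_iff₀ (by linarith) (by linarith)]
    exact_mod_cast hlt
  obtain ⟨dl, hdl⟩ : ∃ dl, dl = (sI - sJ) / 2 := ⟨_, rfl⟩
  have hdl0 : 0 < dl := by rw [hdl]; linarith
  obtain ⟨k, hk⟩ := exists_nat_gt (4 / (dl ^ 2 * ε))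
  have hk0R : (0 : ℝ) < k := lt_trans (by positivity) hk
  have hk0 : 0 < k := by exact_mod_cast hk0R
  set BX := (range (m ^ k)).filter (fun u => (cnt I m k u : ℝ) ≤ k * (sI - dl)) with hBX
  set BY := (range (n ^ k)).filter (fun v => k * (sJ + dl) ≤ (cnt J n k v : ℝ)) with hBY
  have hX := few_bad hm0 hI hdl0 k hk0 BX (filter_subset _ _) (by
    intro u hu
    rw [hBX, mem_filter] at hu
    rw [← hsI, abs_sub_comm]
    refine le_trans ?_ (le_abs_self _)
    have := hu.2
    linarith)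
  have hY := few_bad hn0 hJ hdl0 k hk0 BY (filter_subset _ _) (by
    intro v hv
    rw [hBY, mem_filter] at hv
    rw [← hsJ]
    refine le_trans ?_ (le_abs_self _)
    have := hv.2
    linarith)
  have hmk : (1 : ℝ) ≤ (m : ℝ) ^ k := one_le_pow₀ (by linarith)
  have hnk : (1 : ℝ) ≤ (n : ℝ) ^ k := one_le_pow₀ (by linarith)
  refine ⟨BX ⊕ BY, inferInstance,
    Sum.elim (fun u => !₂[(u.1 : ℝ) / (m : ℝ) ^ k, 0]) (fun v => !₂[0, (v.1 : ℝ) / (n : ℝ) ^ k]),
    Sum.elim (fun u => !₂[(u.1 : ℝ) / (m : ℝ) ^ k, 1]) (fun v => !₂[1, (v.1 : ℝ) / (n : ℝ) ^ k]),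
    Sum.elim (fun _ => 2 / (m : ℝ) ^ k) (fun _ => 2 / (n : ℝ) ^ k), ?_, ?_, ?_⟩
  · rintro (u | v)
    · simp only [Sum.elim_inl]
      have hr : 0 < 2 / (m : ℝ) ^ k := by positivity
      refine ⟨hr, ?_, ?_⟩
      · rw [dist_eq_one (by simp)]
        simp
      · refine area_le 0 1 both_le mp01 (a := (u.1 : ℝ) / (m : ℝ) ^ k) (by simp) (by simp)
          (by simp) (by simp) hr ?_
        rw [div_le_iff₀ (by positivity)]
        linarith
    · simp only [Sum.elim_inr]
      have hr : 0 < 2 / (n : ℝ) ^ k := by positivity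
      refine ⟨hr, ?_, ?_⟩
      · rw [dist_eq_zero' (by simp)]
        simp
      · refine area_le 1 0 (fun z y => (both_le z y).symm) mp10 (a := (v.1 : ℝ) / (n : ℝ) ^ k)
          (by simp) (by simp) (by simp) (by simp) hr ?_
        rw [div_le_iff₀ (by positivity)]
        linarith
  · intro z hz
    obtain ⟨z', hz', q, h1, h2, h3, h4⟩ := exists_word hm0 hn0 hD hF hIJ k z hz
    obtain ⟨⟨zx0, zx1⟩, zy0, zy1⟩ := carpet_bounds hm hn hD hF z hz
    obtain ⟨⟨x0, x1⟩, y0, y1⟩ := carpet_bounds hm hn hD hF z' hz'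
    rw [Set.mem_iUnion]
    rcases le_total ((cnt I m k q.1 : ℝ)) (k * (sI - dl)) with h | h
    · have hq : q.1 ∈ BX := by
        rw [hBX, mem_filter, mem_range]
        exact ⟨h1, h⟩
      refine ⟨Sum.inl ⟨q.1, hq⟩, ?_⟩
      simp only [Sum.elim_inl]
      refine mem_tube 0 1 (fun z y h => dist_eq_zero' h) (a := (q.1 : ℝ) / (m : ℝ) ^ k) (by simp)
        (by simp) (by simp) (by simp) zy0 zy1 ?_
      have e1 : z 0 - (q.1 : ℝ) / (m : ℝ) ^ k = z' 0 / (m : ℝ) ^ k := by
        rw [h3, pt_zero]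
        ring
      rw [e1, abs_of_nonneg (by positivity)]
      apply div_lt_div_of_pos_right _ (by positivity)
      linarith
    · have h5 : (cnt I m k q.1 : ℝ) ≤ (cnt J n k q.2 : ℝ) := by exact_mod_cast h4
      have hq : q.2 ∈ BY := by
        rw [hBY, mem_filter, mem_range]
        refine ⟨h2, ?_⟩
        have : sJ + dl = sI - dl := by rw [hdl]; ring
        rw [this]
        linarith
      refine ⟨Sum.inr ⟨q.2, hq⟩, ?_⟩
      simp only [Sum.elim_inr]
      refine mem_tube 1 0 (fun z y h => dist_eq_one h) (a := (q.2 : ℝ) / (n : ℝ) ^ k) (by simp)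
        (by simp) (by simp) (by simp) zx0 zx1 ?_
      have e1 : z 1 - (q.2 : ℝ) / (n : ℝ) ^ k = z' 1 / (n : ℝ) ^ k := by
        rw [h3, pt_one]
        ring
      rw [e1, abs_of_nonneg (by positivity)]
      apply div_lt_div_of_pos_right _ (by positivity)
      linarith
  · rw [Fintype.sum_sum_type]
    simp only [Sum.elim_inl, Sum.elim_inr, sum_const, card_univ, nsmul_eq_mul, Fintype.card_coe]
    have e1 : (BX.card : ℝ) * (2 / (m : ℝ) ^ k) = 2 * ((BX.card : ℝ) / (m : ℝ) ^ k) := by ring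
    have e2 : (BY.card : ℝ) * (2 / (n : ℝ) ^ k) = 2 * ((BY.card : ℝ) / (n : ℝ) ^ k) := by ring
    rw [e1, e2]
    have e3 : 4 * (1 / (dl ^ 2 * k)) < ε := by
      rw [div_lt_iff₀ (by positivity)] at hk
      rw [mul_one_div, div_lt_iff₀ (by positivity)]
      linarith
    linarith

end Pool.Agent.Y870.TB
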