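import Pool.Agent.Y870.TB.Key

/-!
Carpets with `m` columns and `n` rows and weights with uniform marginals: covering by strips.
-/

set_option autoImplicit false

namespace Pool.Agent.Y870.TB

open Finset
open Pool.Agent.W710.Tube (E2 cellMap IsCarpet cellMap_zero cellMap_one Strip Norm isOpen_strip)

/-- weights of the cells with uniform marginals, all smaller than `1 / n` -/
structure Uni (m n : ℕ) (p : ℕ × ℕ → ℝ) (lam : ℝ) : Prop where
  hm : 2 ≤ m
  hn : m < n
  nonneg : ∀ d, 0 ≤ p d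
  le : ∀ d, p d ≤ lam
  lt : (n : ℝ) * lam < 1
  row : ∀ j < n, ∑ i ∈ range m, p (i, j) = 1 / n
  col : ∀ i < m, ∑ j ∈ range n, p (i, j) = 1 / m

variable {m n : ℕ} {p : ℕ × ℕ → ℝ} {lam : ℝ}

lemma Uni.good (h : Uni m n p lam) : Good m n p lam :=
  ⟨h.hm, by have := h.hm; have := h.hn; omega, h.nonneg, h.le, h.row⟩

lemma Uni.good' (h : Uni m n p lam) : Good n m (sw p) lam :=
  ⟨by have := h.hm; have := h.hn; omega, h.hm, fun _ => h.nonneg _, fun _ => h.le _, h.col⟩

/-- the weights of the reflected carpet -/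
def rf (n : ℕ) (p : ℕ × ℕ → ℝ) : ℕ × ℕ → ℝ := fun d => p (d.1, n - 1 - d.2)

lemma Uni.refl (h : Uni m n p lam) : Uni m n (rf n p) lam := by
  refine ⟨h.hm, h.hn, fun _ => h.nonneg _, fun _ => h.le _, h.lt, ?_, ?_⟩
  · intro j hj
    exact h.row (n - 1 - j) (by omega)
  · intro i hi
    rw [← h.col i hi]
    exact sum_range_reflect (fun j => p (i, j)) n

lemma wt_rf (hn : 0 < n) (k : ℕ) : ∀ (u v : ℕ), v < n ^ k →
    wt m n (rf n p) k (u, n ^ k - 1 - v) = wt m n p k (u, v) := by
  induction k with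
  | zero =>
    intro u v hv
    have : v = 0 := by simpa using hv
    subst this
    simp [wt]
  | succ k ih =>
    intro u v hv
    obtain ⟨v1, hv1⟩ : ∃ v1, v1 = v / n := ⟨_, rfl⟩
    obtain ⟨v0, hv0⟩ : ∃ v0, v0 = v % n := ⟨_, rfl⟩
    have hdm := Nat.div_add_mod v n
    rw [← hv1, ← hv0] at hdm
    have hlt0 : v0 < n := by rw [hv0]; exact Nat.mod_lt _ hn
    have hlt1 : v1 < n ^ k := by
      rw [hv1, Nat.div_lt_iff_lt_mul hn, ← pow_succ]
      exact hv
    obtain ⟨e, he⟩ : ∃ e, e = n ^ k - 1 - v1 := ⟨_, rfl⟩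
    have hpk : n ^ k = v1 + 1 + e := by omega
    have hpow : n ^ (k + 1) = n * v1 + n + n * e := by rw [pow_succ', hpk]; ring
    have e0 : n ^ (k + 1) - 1 - v = n * e + (n - 1 - v0) := by
      rw [hpow, ← hdm]
      generalize n * v1 = P1
      generalize n * e = P2
      omega
    rw [wt_succ, wt_succ, e0]
    simp only
    have e1 : (n * e + (n - 1 - v0)) / n = e := by
      rw [Nat.mul_add_div hn, Nat.div_eq_of_lt (by omega), add_zero]
    have e2 : (n * e + (n - 1 - v0)) % n = n - 1 - v0 := by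
      rw [Nat.mul_add_mod, Nat.mod_eq_of_lt (by omega)]
    rw [e1, e2, he, ih (u / m) v1 hlt1, ← hv1, ← hv0]
    congr 1
    unfold rf
    simp only
    congr 2
    omega

lemma sum_range_mul (f : ℕ → ℝ) (a A : ℕ) :
    ∑ u ∈ range (a * A), f u = ∑ x ∈ range A, ∑ i ∈ range a, f (a * x + i) := by
  induction A with
  | zero => simp
  | succ A ih =>
    rw [sum_range_succ, ← ih, Nat.mul_succ, sum_range_add]

/-- the total weight of a row -/
lemma mass_row (h : Good m n p lam) (k : ℕ) : ∀ v < n ^ k,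
    ∑ u ∈ range (m ^ k), wt m n p k (u, v) = (1 / n) ^ k := by
  induction k with
  | zero =>
    intro v hv
    have : v = 0 := by simpa using hv
    subst this
    simp [wt]
  | succ k ih =>
    intro v hv
    rw [pow_succ' m k, sum_range_mul]
    have e1 : ∀ x ∈ range (m ^ k), ∑ i ∈ range m, wt m n p (k + 1) (m * x + i, v) =
        wt m n p k (x, v / n) * (1 / n) := by
      intro x _
      rw [← h.row (v % n) (Nat.mod_lt _ h.c0), mul_sum]
      apply sum_congr rfl
      intro i hi
      rw [mem_range] at hi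
      rw [wt_succ]
      simp only
      rw [Nat.mul_add_div h.a0, Nat.div_eq_of_lt hi, add_zero, Nat.mul_add_mod,
        Nat.mod_eq_of_lt hi]
    rw [sum_congr rfl e1, ← sum_mul, ih (v / n) (by
      rw [Nat.div_lt_iff_lt_mul h.c0, ← pow_succ]
      exact hv), pow_succ]

lemma mass (h : Good m n p lam) (k : ℕ) :
    ∑ q ∈ range (m ^ k) ×ˢ range (n ^ k), wt m n p k q = 1 := by
  rw [sum_product_right]
  rw [sum_congr rfl (fun v hv => mass_row h k v (mem_range.1 hv)), sum_const, card_range,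
    nsmul_eq_mul]
  push_cast
  have := h.cR
  rw [← mul_pow, mul_one_div_cancel this.ne', one_pow]

/-! ### copies of a point in a strip -/

lemma mt_of_mem {a c : ℕ} {α t w x y : ℝ} {k : ℕ} {q : ℕ × ℕ} (hα : 0 ≤ α)
    (hx : 0 ≤ x) (hx1 : x ≤ 1) (hy : 0 ≤ y) (hy1 : y ≤ 1)
    (h : |α * ((x + q.1) / (a : ℝ) ^ k) + (y + q.2) / (c : ℝ) ^ k - t| < w) :
    Mt a c α t w k q := by
  rw [abs_lt] at h
  have a1 : (q.1 : ℝ) / (a : ℝ) ^ k ≤ (x + q.1) / (a : ℝ) ^ k := by
    apply div_le_div_of_nonneg_right _ (by positivity)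
    linarith
  have a2 : (x + q.1) / (a : ℝ) ^ k ≤ ((q.1 : ℝ) + 1) / (a : ℝ) ^ k := by
    apply div_le_div_of_nonneg_right _ (by positivity)
    linarith
  have b1 : (q.2 : ℝ) / (c : ℝ) ^ k ≤ (y + q.2) / (c : ℝ) ^ k := by
    apply div_le_div_of_nonneg_right _ (by positivity)
    linarith
  have b2 : (y + q.2) / (c : ℝ) ^ k ≤ ((q.2 : ℝ) + 1) / (c : ℝ) ^ k := by
    apply div_le_div_of_nonneg_right _ (by positivity)
    linarith
  have a1' := mul_le_mul_of_nonneg_left a1 hα
  have a2' := mul_le_mul_of_nonneg_left a2 hα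
  constructor
  · linarith
  · linarith

open Classical in
/-- the level `k` copies of the point `(x, y)` inside the strip -/
noncomputable def InS (m n : ℕ) (α β t w x y : ℝ) (k : ℕ) : Finset (ℕ × ℕ) :=
  (range (m ^ k) ×ˢ range (n ^ k)).filter
    fun q => |α * ((x + q.1) / (m : ℝ) ^ k) + β * ((y + q.2) / (n : ℝ) ^ k) - t| < w

lemma mem_InS (α β t w x y : ℝ) (k : ℕ) (q : ℕ × ℕ) :
    q ∈ InS m n α β t w x y k ↔ (q.1 < m ^ k ∧ q.2 < n ^ k) ∧
      |α * ((x + q.1) / (m : ℝ) ^ k) + β * ((y + q.2) / (n : ℝ) ^ k) - t| < w := by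
  classical
  unfold InS
  rw [mem_filter, mem_product, mem_range, mem_range]

lemma sum_le_of_map {s T : Finset (ℕ × ℕ)} {f g : ℕ × ℕ → ℝ} (φ : ℕ × ℕ → ℕ × ℕ)
    (hφ : ∀ q ∈ s, φ q ∈ T) (hinj : Set.InjOn φ s) (hfg : ∀ q ∈ s, g (φ q) = f q)
    (hg : ∀ q, 0 ≤ g q) : ∑ q ∈ s, f q ≤ ∑ q ∈ T, g q := by
  classical
  rw [← sum_congr rfl hfg, ← sum_image (f := g) hinj]
  refine sum_le_sum_of_subset_of_nonneg ?_ (fun q _ _ => hg q)
  intro q hq
  rw [mem_image] at hq
  obtain ⟨q', hq', rfl⟩ := hq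
  exact hφ q' hq'

/-- **A strip of half-width `w` contains copies of a point of total weight at most `K w`.** -/
theorem strip_count (h : Uni m n p lam) : ∃ K : ℝ, 0 < K ∧ ∀ (x y α β t w : ℝ) (k : ℕ),
    0 ≤ x → x ≤ 1 → 0 ≤ y → y ≤ 1 → Norm α β → 0 < w → 1 ≤ (m : ℝ) ^ k * w →
      ∑ q ∈ InS m n α β t w x y k, wt m n p k q ≤ K * w := by
  have h' := h.refl
  have hn0 : 0 < n := h.good.c0
  have hlt' : (m : ℝ) * lam < 1 := by
    have h1 : (m : ℝ) < n := by exact_mod_cast h.hn
    have h2 := lam_pos h.good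
    have := h.lt
    nlinarith
  obtain ⟨K1, hK1, H1⟩ := shallow h.good h.good' h.hn h.lt
  obtain ⟨K2, hK2, H2⟩ := shallow h'.good h'.good' h.hn h.lt
  obtain ⟨K3, hK3, H3⟩ := steep h.good' h.hn hlt'
  obtain ⟨K4, hK4, H4⟩ := steep h'.good' h.hn hlt'
  have hnm : (1 : ℝ) ≤ (n : ℝ) / m := by
    rw [le_div_iff₀ (by exact_mod_cast h.good.a0), one_mul]
    exact_mod_cast h.hn.le
  refine ⟨K1 + K2 + K3 + K4, by positivity, ?_⟩
  intro x y α β t w k hx hx1 hy hy1 hN hw hk
  have hrefl : ∀ v < n ^ k, ((n ^ k - 1 - v : ℕ) : ℝ) = (n : ℝ) ^ k - 1 - v := by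
    intro v hv
    rw [Nat.cast_sub (by omega), Nat.cast_sub (by omega)]
    push_cast
    ring
  have hnk : (0 : ℝ) < (n : ℝ) ^ k := by
    have := h.good.cR
    positivity
  have hrefl' : ∀ v < n ^ k, (1 - y + ((n ^ k - 1 - v : ℕ) : ℝ)) / (n : ℝ) ^ k =
      1 - (y + v) / (n : ℝ) ^ k := by
    intro v hv
    rw [hrefl v hv]
    field_simp
    ring
  rcases hN with ⟨rfl, hβ⟩ | ⟨rfl, hα⟩
  · rw [abs_le] at hβ
    rcases le_or_gt 0 β with hs | hs
    · have hS := H3 β t w k hs (by linarith) hw hk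
      have hle : ∑ q ∈ InS m n 1 β t w x y k, wt m n p k q ≤ S n m (sw p) β t w k := by
        refine sum_le_of_map (fun q => (q.2, q.1)) ?_ ?_ ?_ (wt_nonneg h.good' k)
        · intro q hq
          rw [mem_InS] at hq
          rw [mem_Ms]
          refine ⟨⟨hq.1.2, hq.1.1⟩, mt_of_mem hs hy hy1 hx hx1 ?_⟩
          have := hq.2
          simp only
          rw [one_mul] at this
          rwa [add_comm (β * _)]
        · intro q _ q' _ hqq
          simp only [Prod.mk.injEq] at hqq
          exact Prod.ext hqq.2 hqq.1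
        · intro q _
          exact wt_sw m n p k q
      have : 0 ≤ (K1 + K2 + K4) * w := by positivity
      linarith
    · have hS := H4 (-β) (t - β) w k (by linarith) (by linarith) hw hk
      have hle : ∑ q ∈ InS m n 1 β t w x y k, wt m n p k q ≤
          S n m (sw (rf n p)) (-β) (t - β) w k := by
        refine sum_le_of_map (fun q => (n ^ k - 1 - q.2, q.1)) ?_ ?_ ?_ (wt_nonneg h'.good' k)
        · intro q hq
          rw [mem_InS] at hq
          rw [mem_Ms]
          refine ⟨⟨?_, hq.1.1⟩, mt_of_mem (by linarith) (x := 1 - y) (y := x) (by linarith)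
            (by linarith) hx hx1 ?_⟩
          · simp only
            have := hq.1.2
            omega
          · have h1 := hq.2
            simp only
            rw [hrefl' q.2 hq.1.2]
            convert h1 using 2
            ring
        · intro q hq q' hq' hqq
          rw [mem_coe, mem_InS] at hq hq'
          simp only [Prod.mk.injEq] at hqq
          have := hq.1.2
          have := hq'.1.2
          exact Prod.ext hqq.2 (by omega)
        · intro q hq
          rw [mem_InS] at hq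
          have h1 := wt_sw m n (rf n p) k (q.1, n ^ k - 1 - q.2)
          simp only at h1 ⊢
          rw [h1]
          exact wt_rf hn0 k q.1 q.2 hq.1.2
      have : 0 ≤ (K1 + K2 + K3) * w := by positivity
      linarith
  · rw [abs_le] at hα
    rcases le_or_gt 0 α with hs | hs
    · have hS := H1 α t w k hs hα.2 hw hk
      have hle : ∑ q ∈ InS m n α 1 t w x y k, wt m n p k q ≤ S m n p α t w k := by
        refine sum_le_of_map (fun q => q) ?_ ?_ ?_ (wt_nonneg h.good k)
        · intro q hq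
          rw [mem_InS] at hq
          rw [mem_Ms]
          refine ⟨hq.1, mt_of_mem hs hx hx1 hy hy1 ?_⟩
          have := hq.2
          rwa [one_mul] at this
        · intro q _ q' _ hqq
          exact hqq
        · intro q _
          rfl
      have : 0 ≤ (K2 + K3 + K4) * w := by positivity
      linarith
    · have hS := H2 (-α) (1 - t) w k (by linarith) (by linarith) hw hk
      have hle : ∑ q ∈ InS m n α 1 t w x y k, wt m n p k q ≤
          S m n (rf n p) (-α) (1 - t) w k := by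
        refine sum_le_of_map (fun q => (q.1, n ^ k - 1 - q.2)) ?_ ?_ ?_ (wt_nonneg h'.good k)
        · intro q hq
          rw [mem_InS] at hq
          rw [mem_Ms]
          refine ⟨⟨hq.1.1, ?_⟩, mt_of_mem (by linarith) (x := x) (y := 1 - y) hx hx1 (by linarith)
            (by linarith) ?_⟩
          · simp only
            have := hq.1.2
            omega
          · have h1 := hq.2
            simp only
            rw [hrefl' q.2 hq.1.2]
            rw [← abs_neg] at h1
            convert h1 using 2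
            ring
        · intro q hq q' hq' hqq
          rw [mem_coe, mem_InS] at hq hq'
          simp only [Prod.mk.injEq] at hqq
          have := hq.1.2
          have := hq'.1.2
          exact Prod.ext hqq.1 (by omega)
        · intro q hq
          rw [mem_InS] at hq
          exact wt_rf hn0 k q.1 q.2 hq.1.2
      have : 0 ≤ (K1 + K3 + K4) * w := by positivity
      linarith

/-! ### the carpet -/

variable {D : Finset (ℕ × ℕ)}

lemma carpet_bounds (hm : 2 ≤ m) (hn : 2 ≤ n) (hD : D ⊆ range m ×ˢ range n) {F : Set E2}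
    (hF : IsCarpet m n D F) : ∀ z ∈ F, (0 ≤ z 0 ∧ z 0 ≤ 1) ∧ (0 ≤ z 1 ∧ z 1 ≤ 1) := by
  obtain ⟨hc, hne, hinv⟩ := hF
  have hmR : (2 : ℝ) ≤ m := by exact_mod_cast hm
  have hnR : (2 : ℝ) ≤ n := by exact_mod_cast hn
  have hdec : ∀ z ∈ F, ∃ z' ∈ F, ∃ d ∈ D, z = cellMap m n d z' := by
    intro z hz
    rw [hinv] at hz
    simp only [Set.mem_iUnion, Set.mem_image] at hz
    obtain ⟨d, hd, z', hz', h⟩ := hz
    exact ⟨z', hz', d, hd, h.symm⟩
  have hcont : ∀ i : Fin 2, ContinuousOn (fun z : E2 => z i) F := fun i =>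
    (EuclideanSpace.proj (𝕜 := ℝ) i).continuous.continuousOn
  have hup : ∀ z ∈ F, z 0 ≤ 1 := by
    obtain ⟨y, hy, hmax⟩ := hc.exists_isMaxOn hne (hcont 0)
    have h1 : y 0 ≤ 1 := by
      obtain ⟨z', hz', d, hd, h⟩ := hdec y hy
      have h2 : z' 0 ≤ y 0 := hmax hz'
      have h3 := congrArg (fun z : E2 => z 0) h
      simp only [cellMap_zero] at h3
      have h4 : (d.1 : ℝ) + 1 ≤ m := by
        have h5 := hD hd
        rw [mem_product, mem_range, mem_range] at h5
        exact_mod_cast h5.1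
      rw [eq_div_iff (by linarith)] at h3
      nlinarith
    intro z hz
    exact (hmax hz).trans h1
  have hup1 : ∀ z ∈ F, z 1 ≤ 1 := by
    obtain ⟨y, hy, hmax⟩ := hc.exists_isMaxOn hne (hcont 1)
    have h1 : y 1 ≤ 1 := by
      obtain ⟨z', hz', d, hd, h⟩ := hdec y hy
      have h2 : z' 1 ≤ y 1 := hmax hz'
      have h3 := congrArg (fun z : E2 => z 1) h
      simp only [cellMap_one] at h3
      have h4 : (d.2 : ℝ) + 1 ≤ n := by
        have h5 := hD hd
        rw [mem_product, mem_range, mem_range] at h5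
        exact_mod_cast h5.2
      rw [eq_div_iff (by linarith)] at h3
      nlinarith
    intro z hz
    exact (hmax hz).trans h1
  have hlo : ∀ z ∈ F, 0 ≤ z 0 := by
    obtain ⟨y, hy, hmin⟩ := hc.exists_isMinOn hne (hcont 0)
    have h1 : 0 ≤ y 0 := by
      obtain ⟨z', hz', d, hd, h⟩ := hdec y hy
      have h2 : y 0 ≤ z' 0 := hmin hz'
      have h3 := congrArg (fun z : E2 => z 0) h
      simp only [cellMap_zero] at h3
      have h4 : (0 : ℝ) ≤ (d.1 : ℝ) := Nat.cast_nonneg _
      rw [eq_div_iff (by linarith)] at h3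
      nlinarith
    intro z hz
    exact h1.trans (hmin hz)
  have hlo1 : ∀ z ∈ F, 0 ≤ z 1 := by
    obtain ⟨y, hy, hmin⟩ := hc.exists_isMinOn hne (hcont 1)
    have h1 : 0 ≤ y 1 := by
      obtain ⟨z', hz', d, hd, h⟩ := hdec y hy
      have h2 : y 1 ≤ z' 1 := hmin hz'
      have h3 := congrArg (fun z : E2 => z 1) h
      simp only [cellMap_one] at h3
      have h4 : (0 : ℝ) ≤ (d.2 : ℝ) := Nat.cast_nonneg _
      rw [eq_div_iff (by linarith)] at h3
      nlinarith
    intro z hz
    exact h1.trans (hmin hz)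
  intro z hz
  exact ⟨⟨hlo z hz, hup z hz⟩, ⟨hlo1 z hz, hup1 z hz⟩⟩

/-- the point of the rectangle `q` of level `k` that corresponds to `z` -/
noncomputable def pt (m n k : ℕ) (z : E2) (q : ℕ × ℕ) : E2 :=
  !₂[(z 0 + q.1) / (m : ℝ) ^ k, (z 1 + q.2) / (n : ℝ) ^ k]

lemma pt_zero (k : ℕ) (z : E2) (q : ℕ × ℕ) : pt m n k z q 0 = (z 0 + q.1) / (m : ℝ) ^ k := by
  simp [pt]

lemma pt_one (k : ℕ) (z : E2) (q : ℕ × ℕ) : pt m n k z q 1 = (z 1 + q.2) / (n : ℝ) ^ k := by
  simp [pt]

lemma pt_mem (hm : 0 < m) (hn : 0 < n) {F : Set E2} (hF : IsCarpet m n D F)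
    (hp : ∀ d, p d ≠ 0 → d ∈ D) (k : ℕ) :
    ∀ z ∈ F, ∀ q, wt m n p k q ≠ 0 → pt m n k z q ∈ F := by
  have hmR : (0 : ℝ) < m := by exact_mod_cast hm
  have hnR : (0 : ℝ) < n := by exact_mod_cast hn
  induction k with
  | zero =>
    intro z hz q hq
    have hq0 : q = (0, 0) := by
      by_contra hcon
      apply hq
      unfold wt
      rw [if_neg hcon]
    subst hq0
    have : pt m n 0 z (0, 0) = z := by
      ext i
      fin_cases i
      · simp [pt]
      · simp [pt]
    rw [this]
    exact hz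
  | succ k ih =>
    intro z hz q hq
    rw [wt_succ] at hq
    have hq1 := left_ne_zero_of_mul hq
    have hq2 := right_ne_zero_of_mul hq
    have h1 : cellMap m n (q.1 % m, q.2 % n) z ∈ F := by
      have h2 := hF.2.2
      rw [h2]
      simp only [Set.mem_iUnion, Set.mem_image]
      exact ⟨_, hp _ hq2, z, hz, rfl⟩
    have h3 := ih _ h1 _ hq1
    have h4 : pt m n k (cellMap m n (q.1 % m, q.2 % n) z) (q.1 / m, q.2 / n) =
        pt m n (k + 1) z q := by
      have e1 : (q.1 : ℝ) = m * ((q.1 / m : ℕ) : ℝ) + ((q.1 % m : ℕ) : ℝ) := by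
        exact_mod_cast (Nat.div_add_mod q.1 m).symm
      have e2 : (q.2 : ℝ) = n * ((q.2 / n : ℕ) : ℝ) + ((q.2 % n : ℕ) : ℝ) := by
        exact_mod_cast (Nat.div_add_mod q.2 n).symm
      have f : ∀ (b x u v y : ℝ), 0 < b → y = b * v + u →
          ((x + u) / b + v) / b ^ k = (x + y) / b ^ (k + 1) := by
        intro b x u v y hb hy
        rw [hy, pow_succ]
        field_simp
        ring
      ext i
      fin_cases i
      · show pt m n k (cellMap m n (q.1 % m, q.2 % n) z) (q.1 / m, q.2 / n) 0 =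
          pt m n (k + 1) z q 0
        rw [pt_zero, pt_zero, cellMap_zero]
        exact f _ _ _ _ _ hmR e1
      · show pt m n k (cellMap m n (q.1 % m, q.2 % n) z) (q.1 / m, q.2 / n) 1 =
          pt m n (k + 1) z q 1
        rw [pt_one, pt_one, cellMap_one]
        exact f _ _ _ _ _ hnR e2
    rw [← h4]
    exact h3

/-- strips that cover the carpet have total half-width at least `1 / K` -/
theorem strip_cover (h : Uni m n p lam) (hD : D ⊆ range m ×ˢ range n)
    (hp : ∀ d, p d ≠ 0 → d ∈ D) : ∃ K : ℝ, 0 < K ∧ ∀ (F : Set E2), IsCarpet m n D F →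
    ∀ {ι : Type} (α β t w : ι → ℝ), (∀ i, Norm (α i) (β i)) → (∀ i, 0 < w i) →
      F ⊆ ⋃ i, Strip (α i) (β i) (t i) (w i) → ∃ s : Finset ι, 1 / K ≤ ∑ i ∈ s, w i := by
  classical
  obtain ⟨K, hK, hcount⟩ := strip_count h
  refine ⟨K, hK, ?_⟩
  intro F hF ι α β t w hN hw hcov0
  obtain ⟨s, hcov⟩ := hF.1.elim_finite_subcover _ (fun i => isOpen_strip _ _ _ _) hcov0
  refine ⟨s, ?_⟩
  have hm1 : (1 : ℝ) < m := by exact_mod_cast (by have := h.hm; omega : 1 < m)
  obtain ⟨z, hz⟩ := hF.2.1
  obtain ⟨⟨x0, x1⟩, y0, y1⟩ := carpet_bounds h.hm (by have := h.hm; have := h.hn; omega) hD hF z hz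
  obtain ⟨k, hk⟩ : ∃ k : ℕ, ∀ i ∈ s, 1 ≤ (m : ℝ) ^ k * w i := by
    have h1 : ∀ i ∈ s, ∃ k : ℕ, 1 / w i < (m : ℝ) ^ k := fun i _ =>
      pow_unbounded_of_one_lt _ hm1
    choose! f hf using h1
    refine ⟨s.sup f, fun i hi => ?_⟩
    have h2 := hf i hi
    have h3 : (m : ℝ) ^ f i ≤ (m : ℝ) ^ s.sup f :=
      pow_le_pow_right₀ hm1.le (Finset.le_sup hi)
    have h4 := hw i
    rw [div_lt_iff₀ h4] at h2
    have h5 := mul_le_mul_of_nonneg_right h3 h4.le
    linarith
  have h1 : (1 : ℝ) ≤ ∑ i ∈ s, K * w i := by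
    rw [← mass h.good k]
    calc ∑ q ∈ range (m ^ k) ×ˢ range (n ^ k), wt m n p k q
        ≤ ∑ q ∈ range (m ^ k) ×ˢ range (n ^ k), ∑ i ∈ s,
            (if |α i * ((z 0 + q.1) / (m : ℝ) ^ k) + β i * ((z 1 + q.2) / (n : ℝ) ^ k) - t i| <
              w i then wt m n p k q else 0) := by
          apply sum_le_sum
          intro q _
          have hnn := wt_nonneg h.good k q
          by_cases hq : wt m n p k q = 0
          · rw [hq]
            simp
          · have h2 := hcov (pt_mem h.good.a0 h.good.c0 hF hp k z hz q hq)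
            simp only [Set.mem_iUnion] at h2
            obtain ⟨i, hi, h3⟩ := h2
            have h4 : |α i * ((z 0 + q.1) / (m : ℝ) ^ k) +
                β i * ((z 1 + q.2) / (n : ℝ) ^ k) - t i| < w i := by
              have h5 : |α i * pt m n k z q 0 + β i * pt m n k z q 1 - t i| < w i := h3
              rwa [pt_zero, pt_one] at h5
            have h6 := single_le_sum (f := fun i =>
              (if |α i * ((z 0 + q.1) / (m : ℝ) ^ k) + β i * ((z 1 + q.2) / (n : ℝ) ^ k) - t i| <
                w i then wt m n p k q else 0)) (fun i _ => by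
                  simp only
                  split_ifs
                  · exact hnn
                  · exact le_rfl) hi
            simp only [if_pos h4] at h6
            exact h6
      _ = ∑ i ∈ s, ∑ q ∈ InS m n (α i) (β i) (t i) (w i) (z 0) (z 1) k, wt m n p k q := by
          rw [sum_comm]
          apply sum_congr rfl
          intro i _
          rw [← sum_filter]
          apply sum_congr _ (fun _ _ => rfl)
          ext q
          rw [mem_InS, mem_filter, mem_product, mem_range, mem_range]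
      _ ≤ ∑ i ∈ s, K * w i :=
          sum_le_sum fun i hi => hcount _ _ _ _ _ _ _ x0 x1 y0 y1 (hN i) (hw i) (hk i hi)
  rw [← mul_sum] at h1
  rw [div_le_iff₀ hK]
  linarith

end Pool.Agent.Y870.TB
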