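import Pool.Agent.Y870.TB.Cover

/-!
Weights on finite sets of cells; the grid without one cell.
-/

set_option autoImplicit false

namespace Pool.Agent.Y870.TB

open Finset

variable {m n : ℕ} {D : Finset (ℕ × ℕ)} {p : ℕ × ℕ → ℝ}

/-- the weights extended by `0` -/
noncomputable def ext0 (D : Finset (ℕ × ℕ)) (p : ℕ × ℕ → ℝ) : ℕ × ℕ → ℝ :=
  fun d => if d ∈ D then p d else 0

lemma uni_of_weights (hm : 2 ≤ m) (hn : m < n) (hD : D ⊆ range m ×ˢ range n)
    (hp : ∀ d ∈ D, 0 ≤ p d ∧ p d < 1 / n)
    (hrow : ∀ j < n, ∑ d ∈ D with d.2 = j, p d = 1 / n)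
    (hcol : ∀ i < m, ∑ d ∈ D with d.1 = i, p d = 1 / m) :
    ∃ lam, Uni m n (ext0 D p) lam ∧ ∀ d, ext0 D p d ≠ 0 → d ∈ D := by
  have hnR : (0 : ℝ) < n := by exact_mod_cast (by omega : 0 < n)
  have hne : D.Nonempty := by
    rw [nonempty_iff_ne_empty]
    rintro rfl
    have h0 := hrow 0 (by omega)
    rw [filter_empty, sum_empty] at h0
    have : (0 : ℝ) < 1 / n := by positivity
    linarith
  obtain ⟨d0, hd0, hmax⟩ := exists_max_image D p hne
  refine ⟨p d0, ⟨hm, hn, ?_, ?_, ?_, ?_, ?_⟩, ?_⟩
  · intro d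
    unfold ext0
    split_ifs with h
    · exact (hp d h).1
    · exact le_rfl
  · intro d
    unfold ext0
    split_ifs with h
    · exact hmax d h
    · exact (hp d0 hd0).1
  · have := (hp d0 hd0).2
    rw [lt_div_iff₀ hnR] at this
    linarith
  · intro j hj
    rw [← hrow j hj]
    symm
    rw [sum_filter]
    have e1 : ∑ d ∈ D, (if d.2 = j then p d else 0) =
        ∑ d ∈ range m ×ˢ range n, (if d.2 = j then ext0 D p d else 0) := by
      rw [← sum_subset hD]
      · apply sum_congr rfl
        intro d hd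
        unfold ext0
        rw [if_pos hd]
      · intro d _ hd
        unfold ext0
        rw [if_neg hd]
        simp
    rw [e1, sum_product]
    apply sum_congr rfl
    intro i _
    rw [sum_ite_eq' (range n) j (fun y => ext0 D p (i, y)), if_pos (mem_range.2 hj)]
  · intro i hi
    rw [← hcol i hi]
    symm
    rw [sum_filter]
    have e1 : ∑ d ∈ D, (if d.1 = i then p d else 0) =
        ∑ d ∈ range m ×ˢ range n, (if d.1 = i then ext0 D p d else 0) := by
      rw [← sum_subset hD]
      · apply sum_congr rfl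
        intro d hd
        unfold ext0
        rw [if_pos hd]
      · intro d _ hd
        unfold ext0
        rw [if_neg hd]
        simp
    rw [e1, sum_product_right]
    apply sum_congr rfl
    intro j _
    rw [sum_ite_eq' (range m) i (fun x => ext0 D p (x, j)), if_pos (mem_range.2 hi)]
  · intro d hd
    by_contra hcon
    apply hd
    unfold ext0
    rw [if_neg hcon]

/-- the weights on the grid without the cell `d0` -/
noncomputable def gw (m n : ℕ) (d0 d : ℕ × ℕ) : ℝ :=
  if d.2 = d0.2 then 1 / (n * (m - 1))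
  else if d.1 = d0.1 then 1 / (m * (n - 1))
  else (1 / m - 1 / (n * (m - 1))) / (n - 1)

lemma gw_spec (hm : 3 ≤ m) (hn : m < n) {d0 : ℕ × ℕ} (hd0 : d0 ∈ range m ×ˢ range n) :
    (∀ d ∈ (range m ×ˢ range n).erase d0, 0 ≤ gw m n d0 d ∧ gw m n d0 d < 1 / n) ∧
    (∀ j < n, ∑ d ∈ (range m ×ˢ range n).erase d0 with d.2 = j, gw m n d0 d = 1 / n) ∧
    (∀ i < m, ∑ d ∈ (range m ×ˢ range n).erase d0 with d.1 = i, gw m n d0 d = 1 / m) := by
  obtain ⟨i0, j0⟩ := d0
  rw [mem_product, mem_range, mem_range] at hd0
  obtain ⟨hi0, hj0⟩ := hd0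
  simp only at hi0 hj0
  have hmR : (3 : ℝ) ≤ m := by exact_mod_cast hm
  have hnR : (m : ℝ) + 1 ≤ n := by exact_mod_cast hn
  have hm1 : (0 : ℝ) < m - 1 := by linarith
  have hn1 : (0 : ℝ) < n - 1 := by linarith
  have hm0 : (0 : ℝ) < m := by linarith
  have hn0 : (0 : ℝ) < n := by linarith
  have b1 : 1 / ((n : ℝ) * (m - 1)) < 1 / n := by
    apply one_div_lt_one_div_of_lt hn0
    nlinarith
  have b2 : 1 / ((m : ℝ) * (n - 1)) < 1 / n := by
    apply one_div_lt_one_div_of_lt hn0
    nlinarith
  have b3 : (1 / (m : ℝ) - 1 / (n * (m - 1))) / (n - 1) < 1 / n := by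
    refine lt_of_lt_of_le ?_ b2.le
    have : 1 / ((m : ℝ) * (n - 1)) = (1 / m) / (n - 1) := by rw [div_div]
    rw [this]
    apply div_lt_div_of_pos_right _ hn1
    have : 0 < 1 / ((n : ℝ) * (m - 1)) := by positivity
    linarith
  have b4 : 0 ≤ (1 / (m : ℝ) - 1 / (n * (m - 1))) / (n - 1) := by
    apply div_nonneg _ hn1.le
    rw [sub_nonneg]
    apply one_div_le_one_div_of_le hm0
    nlinarith
  -- sums over rows and columns
  have hrow : ∀ (j : ℕ), j < n → ∀ f : ℕ × ℕ → ℝ,
      ∑ d ∈ (range m ×ˢ range n).erase (i0, j0) with d.2 = j, f d =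
        ∑ i ∈ range m, (if (i, j) = (i0, j0) then 0 else f (i, j)) := by
    intro j hj f
    rw [sum_filter, ← filter_ne', sum_filter, sum_product]
    apply sum_congr rfl
    intro i _
    rw [sum_eq_single j]
    · by_cases h : (i, j) = (i0, j0)
      · simp [h]
      · simp [h]
    · intro j' _ hj'
      simp [hj']
    · intro h
      exact absurd (mem_range.2 hj) h
  have hcol : ∀ (i : ℕ), i < m → ∀ f : ℕ × ℕ → ℝ,
      ∑ d ∈ (range m ×ˢ range n).erase (i0, j0) with d.1 = i, f d =
        ∑ j ∈ range n, (if (i, j) = (i0, j0) then 0 else f (i, j)) := by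
    intro i hi f
    rw [sum_filter, ← filter_ne', sum_filter, sum_product_right]
    apply sum_congr rfl
    intro j _
    rw [sum_eq_single i]
    · by_cases h : (i, j) = (i0, j0)
      · simp [h]
      · simp [h]
    · intro i' _ hi'
      simp [hi']
    · intro h
      exact absurd (mem_range.2 hi) h
  refine ⟨?_, ?_, ?_⟩
  · intro d _
    unfold gw
    split_ifs
    · exact ⟨by positivity, b1⟩
    · exact ⟨by positivity, b2⟩
    · exact ⟨b4, b3⟩
  · intro j hj
    rw [hrow j hj]
    unfold gw
    by_cases h : j = j0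
    · subst h
      have e1 : ∀ i ∈ range m, (if (i, j) = (i0, j) then (0 : ℝ) else
          (if (i, j).2 = (i0, j).2 then 1 / (n * (m - 1))
            else if (i, j).1 = (i0, j).1 then 1 / (m * (n - 1))
            else (1 / m - 1 / (n * (m - 1))) / (n - 1))) =
          1 / (n * (m - 1)) - (if i = i0 then 1 / ((n : ℝ) * (m - 1)) else 0) := by
        intro i _
        by_cases hi : i = i0
        · simp [hi]
        · simp [hi]
      rw [sum_congr rfl e1, sum_sub_distrib, sum_const, card_range, nsmul_eq_mul, sum_ite_eq',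
        if_pos (mem_range.2 hi0)]
      field_simp
    · have e1 : ∀ i ∈ range m, (if (i, j) = (i0, j0) then (0 : ℝ) else
          (if (i, j).2 = (i0, j0).2 then 1 / (n * (m - 1))
            else if (i, j).1 = (i0, j0).1 then 1 / (m * (n - 1))
            else (1 / m - 1 / (n * (m - 1))) / (n - 1))) =
          (1 / (m : ℝ) - 1 / (n * (m - 1))) / (n - 1) +
            (if i = i0 then 1 / ((m : ℝ) * (n - 1)) -
              (1 / (m : ℝ) - 1 / (n * (m - 1))) / (n - 1) else 0) := by
        intro i _
        by_cases hi : i = i0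
        · simp [hi, h]
        · simp [hi, h]
      rw [sum_congr rfl e1, sum_add_distrib, sum_const, card_range, nsmul_eq_mul, sum_ite_eq',
        if_pos (mem_range.2 hi0)]
      field_simp
      ring
  · intro i hi
    rw [hcol i hi]
    unfold gw
    by_cases h : i = i0
    · subst h
      have e1 : ∀ j ∈ range n, (if (i, j) = (i, j0) then (0 : ℝ) else
          (if (i, j).2 = (i, j0).2 then 1 / (n * (m - 1))
            else if (i, j).1 = (i, j0).1 then 1 / (m * (n - 1))
            else (1 / m - 1 / (n * (m - 1))) / (n - 1))) =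
          1 / (m * (n - 1)) - (if j = j0 then 1 / ((m : ℝ) * (n - 1)) else 0) := by
        intro j _
        by_cases hj : j = j0
        · simp [hj]
        · simp [hj]
      rw [sum_congr rfl e1, sum_sub_distrib, sum_const, card_range, nsmul_eq_mul, sum_ite_eq',
        if_pos (mem_range.2 hj0)]
      field_simp
    · have e1 : ∀ j ∈ range n, (if (i, j) = (i0, j0) then (0 : ℝ) else
          (if (i, j).2 = (i0, j0).2 then 1 / (n * (m - 1))
            else if (i, j).1 = (i0, j0).1 then 1 / (m * (n - 1))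
            else (1 / m - 1 / (n * (m - 1))) / (n - 1))) =
          (1 / (m : ℝ) - 1 / (n * (m - 1))) / (n - 1) +
            (if j = j0 then 1 / ((n : ℝ) * (m - 1)) -
              (1 / (m : ℝ) - 1 / (n * (m - 1))) / (n - 1) else 0) := by
        intro j _
        by_cases hj : j = j0
        · simp [hj, h]
        · simp [hj, h]
      rw [sum_congr rfl e1, sum_add_distrib, sum_const, card_range, nsmul_eq_mul, sum_ite_eq',
        if_pos (mem_range.2 hj0)]
      field_simp
      ring

end Pool.Agent.Y870.TB
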