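import Pool.Agent.Y870.TB.Thin

/-!
Growth of the weight of the rectangles that meet a thin strip.
-/

set_option autoImplicit false

namespace Pool.Agent.Y870.TB

open Finset

variable {a c : ℕ} {p : ℕ × ℕ → ℝ} {lam : ℝ}

/-- the error of the step from level `b` to level `b + 1` -/
noncomputable def del (a c : ℕ) (th sg α : ℝ) (b : ℕ) : ℝ :=
  6 * th ^ b + (6 + c) * ((a : ℝ) * c * α * ((c : ℝ) / a) ^ b) ^ sg

lemma del_nonneg {th sg α : ℝ} (hth : 0 ≤ th) (hα : 0 ≤ α) (b : ℕ) :
    0 ≤ del a c th sg α b := by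
  unfold del
  positivity

/-- **Growth.** `th = c * lam` is `< 1` and `sg` is defined by `a ^ sg = 1 / th`. -/
lemma growth (h : Good a c p lam) {th sg : ℝ} (hth : th = c * lam) (hth0 : 0 < th)
    (hsg : (a : ℝ) ^ sg = 1 / th) (hsg0 : 0 < sg) {α t w : ℝ} (hα : 0 < α) (hw : 0 < w) :
    ∀ B : ℕ, (c : ℝ) ^ B * w ≤ 1 → (∀ b < B, 2 * w * (a : ℝ) ^ b ≤ α) →
      S a c p α t w B ≤ (1 / c) ^ B * Real.exp (∑ b ∈ range B, del a c th sg α b) := by
  have haR := h.aR
  have hcR := h.cR
  have hc1 : (1 : ℝ) ≤ c := by exact_mod_cast h.c0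
  have ha1 : (1 : ℝ) ≤ a := by exact_mod_cast h.a0
  intro B
  induction B using Nat.strong_induction_on with
  | _ B ih =>
  intro hcB hreg
  rcases B with _ | b
  · simpa using S_zero h α t w
  have hmono : ∀ k : ℕ, k ≤ b → (c : ℝ) ^ k * w ≤ 1 := by
    intro k hk
    have : (c : ℝ) ^ k ≤ c ^ (b + 1) := pow_le_pow_right₀ hc1 (by omega)
    nlinarith
  have ihb := ih b (by omega) (hmono b le_rfl) (fun b' hb' => hreg b' (by omega))
  set E : ℕ → ℝ := fun B => Real.exp (∑ b ∈ range B, del a c th sg α b) with hE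
  have hEs : E (b + 1) = E b * Real.exp (del a c th sg α b) := by
    simp only [hE]
    rw [sum_range_succ, Real.exp_add]
  have hEmono : ∀ g ≤ b, E g ≤ E b := by
    intro g hg
    simp only [hE]
    apply Real.exp_le_exp.2
    apply sum_le_sum_of_subset_of_nonneg
    · intro x hx
      rw [mem_range] at hx ⊢
      omega
    · intro x _ _
      exact del_nonneg hth0.le hα.le x
  have hEpos : ∀ g, 0 < E g := fun g => Real.exp_pos _
  have hx0 : 0 < (a : ℝ) * c * α * ((c : ℝ) / a) ^ b := by positivity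
  -- the bound with the error `X`
  suffices hX : ∃ X : ℝ, X ≤ Real.exp (del a c th sg α b) ∧
      S a c p α t w (b + 1) ≤ (1 / c) ^ (b + 1) * (E b * X) by
    obtain ⟨X, hX1, hX2⟩ := hX
    refine hX2.trans ?_
    show _ ≤ (1 / (c : ℝ)) ^ (b + 1) * E (b + 1)
    rw [hEs]
    have := hEpos b
    gcongr
  by_cases hex : ∃ g, g ≤ b ∧ (c : ℝ) ^ (b + 1) * α ≤ (a : ℝ) ^ g
  · classical
    have hspec := Nat.find_spec hex
    have hmin : ∀ g' < Nat.find hex, ¬ (g' ≤ b ∧ (c : ℝ) ^ (b + 1) * α ≤ (a : ℝ) ^ g') :=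
      fun g' hg' => Nat.find_min hex hg'
    set g := Nat.find hex with hg
    obtain ⟨hgb, hga⟩ := hspec
    obtain ⟨s, hs⟩ : ∃ s, b = g + s := ⟨b - g, by omega⟩
    have ihg := ih g (by omega) (hmono g hgb) (fun b' hb' => hreg b' (by omega))
    have hstep := step (t := t) h hα g s (by rw [← hs]; exact hcB) (by rw [← hs]; exact hga)
      (by rw [← hs]; exact hreg b (by omega))
    rw [← hs] at hstep
    refine ⟨1 + 6 * th ^ s, ?_, ?_⟩
    · -- the error term
      have hths : th ^ s ≤ th ^ b + ((a : ℝ) * c * α * ((c : ℝ) / a) ^ b) ^ sg := by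
        rcases Nat.eq_zero_or_pos g with h0 | h0
        · rw [h0, Nat.zero_add] at hs
          rw [← hs]
          have : 0 ≤ ((a : ℝ) * c * α * ((c : ℝ) / a) ^ b) ^ sg := by positivity
          linarith
        · have h1 := hmin (g - 1) (by omega)
          have h2 : (a : ℝ) ^ (g - 1) < (c : ℝ) ^ (b + 1) * α := by
            by_contra hcon
            push Not at hcon
            exact h1 ⟨by omega, hcon⟩
          have h3 : (a : ℝ) ^ g ≤ a * ((c : ℝ) ^ (b + 1) * α) := by
            have : (a : ℝ) ^ g = a * (a : ℝ) ^ (g - 1) := by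
              rw [← pow_succ']
              congr 1
              omega
            rw [this]
            exact mul_le_mul_of_nonneg_left h2.le haR.le
          -- `th ^ s = th ^ b / th ^ g`
          have h4 : ∀ k : ℕ, ((a : ℝ) ^ k) ^ sg = (1 / th) ^ k := by
            intro k
            rw [← Real.rpow_natCast, ← Real.rpow_mul haR.le, mul_comm, Real.rpow_mul haR.le, hsg,
              Real.rpow_natCast]
          have h5 : th ^ s = (1 / th) ^ g * th ^ b := by
            rw [hs, pow_add, one_div, inv_pow]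
            field_simp
          have h6 : th ^ b = (((a : ℝ) ^ b) ^ sg)⁻¹ := by
            rw [h4, one_div, inv_pow, inv_inv]
          have h7 : (1 / th) ^ g ≤ (a * ((c : ℝ) ^ (b + 1) * α)) ^ sg := by
            rw [← h4]
            exact Real.rpow_le_rpow (by positivity) h3 hsg0.le
          have h8 : (a : ℝ) * c * α * ((c : ℝ) / a) ^ b =
              (a * ((c : ℝ) ^ (b + 1) * α)) / (a : ℝ) ^ b := by
            rw [div_pow, pow_succ]
            ring
          rw [h8, Real.div_rpow (by positivity) (by positivity), div_eq_mul_inv, ← h6, h5]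
          have h9 : (0 : ℝ) ≤ th ^ b := by positivity
          have := mul_le_mul_of_nonneg_right h7 h9
          linarith
      have h1 : 1 + 6 * th ^ s ≤ del a c th sg α b + 1 := by
        unfold del
        have : 0 ≤ (c : ℝ) * ((a : ℝ) * c * α * ((c : ℝ) / a) ^ b) ^ sg := by positivity
        linarith
      exact h1.trans (Real.add_one_le_exp _)
    · have h1 : S a c p α t w b ≤ (1 / c) ^ b * E b := ihb
      have h2 : S a c p α t w g ≤ (1 / c) ^ g * E b :=
        ihg.trans (mul_le_mul_of_nonneg_left (hEmono g hgb) (by positivity))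
      have h3 : ∀ e : ℝ, lam ^ s * ((1 / (c : ℝ)) ^ g * e) =
          (1 / (c : ℝ)) ^ b * (th ^ s * e) := by
        intro e
        rw [hth, hs, pow_add, mul_pow]
        have : (1 / (c : ℝ)) ^ s * (c : ℝ) ^ s = 1 := by
          rw [← mul_pow, one_div, inv_mul_cancel₀ hcR.ne', one_pow]
        calc lam ^ s * ((1 / (c : ℝ)) ^ g * e)
            = ((1 / (c : ℝ)) ^ s * (c : ℝ) ^ s) * (lam ^ s * ((1 / (c : ℝ)) ^ g * e)) := by
              rw [this, one_mul]
          _ = _ := by ring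
      have h4 : lam ^ s * S a c p α t w g ≤ (1 / (c : ℝ)) ^ b * (th ^ s * E b) := by
        rw [← h3]
        exact mul_le_mul_of_nonneg_left h2 (pow_nonneg h.lam0 _)
      calc S a c p α t w (b + 1)
          ≤ (1 / c) * (S a c p α t w b + 6 * (lam ^ s * S a c p α t w g)) := hstep
        _ ≤ (1 / c) * ((1 / c) ^ b * E b + 6 * ((1 / (c : ℝ)) ^ b * (th ^ s * E b))) := by
          refine mul_le_mul_of_nonneg_left ?_ (by positivity)
          linarith
        _ = (1 / c) ^ (b + 1) * (E b * (1 + 6 * th ^ s)) := by ring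
  · -- few levels: the trivial bound
    refine ⟨c, ?_, ?_⟩
    · have h1 : (a : ℝ) ^ b < (c : ℝ) ^ (b + 1) * α := by
        by_contra hcon
        push Not at hcon
        exact hex ⟨b, le_rfl, hcon⟩
      have h2 : 1 ≤ (a : ℝ) * c * α * ((c : ℝ) / a) ^ b := by
        have h3 : (a : ℝ) * c * α * ((c : ℝ) / a) ^ b =
            a * (((c : ℝ) ^ (b + 1) * α) / (a : ℝ) ^ b) := by
          rw [div_pow, pow_succ]
          ring
        have h4 : 1 ≤ ((c : ℝ) ^ (b + 1) * α) / (a : ℝ) ^ b := by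
          rw [le_div_iff₀ (by positivity), one_mul]
          exact h1.le
        rw [h3]
        nlinarith
      have h3 : 1 ≤ ((a : ℝ) * c * α * ((c : ℝ) / a) ^ b) ^ sg := Real.one_le_rpow h2 hsg0.le
      have h4 : (c : ℝ) ≤ del a c th sg α b + 1 := by
        unfold del
        have h5 : (0 : ℝ) ≤ 6 * th ^ b := by positivity
        nlinarith
      exact h4.trans (Real.add_one_le_exp _)
    · have h1 := S_desc (t := t) (w := w) h hα.le b 1
      refine h1.trans (ihb.trans (le_of_eq ?_))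
      rw [pow_succ]
      have : (1 / (c : ℝ)) * c = 1 := by rw [one_div, inv_mul_cancel₀ hcR.ne']
      calc (1 / (c : ℝ)) ^ b * E b = (1 / (c : ℝ)) ^ b * ((1 / (c : ℝ)) * c) * E b := by
            rw [this, mul_one]
        _ = _ := by ring

/-- **Thin strips.** Up to the level `G` (all the levels `≤ h0` if `G = h0`), the growth is
uniform; after the strip is very flat only the factor `5` is lost. -/
lemma thin (h : Good a c p lam) {th sg : ℝ} (hth : th = c * lam) (hth0 : 0 < th)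
    (hsg : (a : ℝ) ^ sg = 1 / th) (hsg0 : 0 < sg) {α t w : ℝ} (hα : 0 ≤ α) (hw : 0 < w)
    (L : ℕ) {Q : ℝ} (h0 : ℕ) (hh0 : (c : ℝ) ^ h0 * w ≤ 1)
    (hQ : ∀ G : ℕ, G ≤ L → ∑ b ∈ range G, del a c th sg α b ≤ Q) (hQ0 : 0 ≤ Q) :
    S a c p α t w h0 ≤ 5 * Real.exp Q * (1 / c) ^ h0 ∨
      (L < h0 ∧ 0 < α ∧ S a c p α t w L ≤ Real.exp Q * (1 / c) ^ L) := by
  classical
  have haR := h.aR
  have hcR := h.cR
  have hc1 : (1 : ℝ) ≤ c := by exact_mod_cast h.c0
  have hE1 : 1 ≤ Real.exp Q := Real.one_le_exp hQ0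
  rcases lt_or_ge α (2 * w) with hαw | hαw
  · left
    have h1 := part2 (t := t) h hα 0 h0 (by simpa using hαw) (by simpa using hh0)
    rw [Nat.zero_add] at h1
    have h2 := S_zero h α t w
    have h3 : (0 : ℝ) ≤ (1 / (c : ℝ)) ^ h0 := by positivity
    calc S a c p α t w h0 ≤ (1 / c) ^ h0 * (5 * S a c p α t w 0) := h1
      _ ≤ (1 / c) ^ h0 * (5 * 1) := by gcongr
      _ = 5 * 1 * (1 / c) ^ h0 := by ring
      _ ≤ 5 * Real.exp Q * (1 / c) ^ h0 := by gcongr
  have hα0 : 0 < α := by linarith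
  obtain ⟨G, hG, hGL, hGh, hGm⟩ : ∃ G, (G = L ∨ G = h0 ∨ α < 2 * w * (a : ℝ) ^ G) ∧ G ≤ L ∧
      G ≤ h0 ∧ ∀ b < G, 2 * w * (a : ℝ) ^ b ≤ α := by
    have hex : ∃ G, G = L ∨ G = h0 ∨ α < 2 * w * (a : ℝ) ^ G := ⟨L, Or.inl rfl⟩
    refine ⟨Nat.find hex, Nat.find_spec hex, Nat.find_min' hex (Or.inl rfl),
      Nat.find_min' hex (Or.inr (Or.inl rfl)), ?_⟩
    intro b hb
    have := Nat.find_min hex hb
    push Not at this
    exact this.2.2
  have hcG : (c : ℝ) ^ G * w ≤ 1 := by
    have : (c : ℝ) ^ G ≤ c ^ h0 := pow_le_pow_right₀ hc1 hGh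
    nlinarith
  have hgr := growth (t := t) h hth hth0 hsg hsg0 hα0 hw G hcG hGm
  have hgr' : S a c p α t w G ≤ Real.exp Q * (1 / c) ^ G := by
    refine hgr.trans ?_
    rw [mul_comm]
    refine mul_le_mul_of_nonneg_right (Real.exp_le_exp.2 (hQ G hGL)) (by positivity)
  have hpos : ∀ k : ℕ, (0 : ℝ) ≤ (1 / (c : ℝ)) ^ k := fun k => by positivity
  have five : ∀ k : ℕ, Real.exp Q * (1 / (c : ℝ)) ^ k ≤ 5 * Real.exp Q * (1 / (c : ℝ)) ^ k := by
    intro k
    have := hpos k
    nlinarith [mul_nonneg (Real.exp_pos Q).le this]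
  rcases hG with hG | hG | hG
  · rcases Nat.lt_or_ge L h0 with hLh | hLh
    · right
      exact ⟨hLh, hα0, hG ▸ hgr'⟩
    · left
      have : G = h0 := by omega
      rw [← this]
      exact hgr'.trans (five G)
  · left
    rw [← hG]
    exact hgr'.trans (five G)
  · left
    obtain ⟨r, rfl⟩ : ∃ r, h0 = G + r := ⟨h0 - G, by omega⟩
    have h3 := part2 (t := t) h hα G r hG hh0
    calc S a c p α t w (G + r) ≤ (1 / c) ^ r * (5 * S a c p α t w G) := h3
      _ ≤ (1 / c) ^ r * (5 * (Real.exp Q * (1 / c) ^ G)) := by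
        have := hpos r
        gcongr
      _ = 5 * Real.exp Q * (1 / c) ^ (G + r) := by rw [pow_add]; ring

end Pool.Agent.Y870.TB
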