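import Pool.Agent.Y870.TB.Growth

/-!
The key estimate: a strip of half-width `w` meets rectangles of total weight at most `K w`.
-/

set_option autoImplicit false

namespace Pool.Agent.Y870.TB

open Finset

variable {a c : ℕ} {p : ℕ × ℕ → ℝ} {lam : ℝ}

/-- the weights with the coordinates exchanged -/
def sw (p : ℕ × ℕ → ℝ) : ℕ × ℕ → ℝ := fun d => p (d.2, d.1)

lemma wt_sw (a c : ℕ) (p : ℕ × ℕ → ℝ) (k : ℕ) : ∀ q : ℕ × ℕ,
    wt c a (sw p) k (q.2, q.1) = wt a c p k q := by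
  induction k with
  | zero =>
    intro q
    unfold wt
    by_cases hq : q = (0, 0)
    · subst hq; simp
    · have : ¬ ((q.2, q.1) = ((0, 0) : ℕ × ℕ)) := by
        intro h
        simp only [Prod.mk.injEq] at h
        exact hq (Prod.ext h.2 h.1)
      rw [if_neg hq, if_neg this]
  | succ k ih =>
    intro q
    rw [wt_succ, wt_succ]
    have := ih (q.1 / a, q.2 / c)
    simp only at this ⊢
    rw [this]
    rfl

lemma wt_tail (a c : ℕ) (p : ℕ × ℕ → ℝ) (B s : ℕ) : ∀ q : ℕ × ℕ,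
    wt a c p (B + s) q = wt a c p B (q.1 / a ^ s, q.2 / c ^ s) *
      wt a c p s (q.1 % a ^ s, q.2 % c ^ s) := by
  induction s with
  | zero => intro q; simp [Nat.mod_one, wt]
  | succ s ih =>
    intro q
    rw [← add_assoc, wt_succ, ih, wt_succ]
    simp only
    rw [Nat.div_div_eq_div_mul, Nat.div_div_eq_div_mul, ← pow_succ', ← pow_succ']
    have e1 : q.1 % a ^ (s + 1) / a = q.1 / a % a ^ s := by
      rw [pow_succ', Nat.mod_mul_right_div_self]
    have e2 : q.2 % c ^ (s + 1) / c = q.2 / c % c ^ s := by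
      rw [pow_succ', Nat.mod_mul_right_div_self]
    have e3 : q.1 % a ^ (s + 1) % a = q.1 % a :=
      Nat.mod_mod_of_dvd _ (dvd_pow_self a (Nat.succ_ne_zero s))
    have e4 : q.2 % c ^ (s + 1) % c = q.2 % c :=
      Nat.mod_mod_of_dvd _ (dvd_pow_self c (Nat.succ_ne_zero s))
    rw [e1, e2, e3, e4]
    ring

/-- zooming in: the part of the strip inside a rectangle of level `B` becomes steeper -/
lemma zoom (h : Good a c p lam) {α t w C : ℝ} (hα : 0 < α) (B s : ℕ)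
    (hC : ∀ t' : ℝ, S c a (sw p) ((a : ℝ) ^ B / ((c : ℝ) ^ B * α)) t' (w * (a : ℝ) ^ B / α) s ≤ C) :
    S a c p α t w (B + s) ≤ C * S a c p α t w B := by
  classical
  have haR := h.aR
  have hcR := h.cR
  have e0 : S a c p α t w (B + s) = ∑ z ∈ Ms a c α t w B,
      ∑ q ∈ (Ms a c α t w (B + s)).filter (fun q => (q.1 / a ^ s, q.2 / c ^ s) = z),
        wt a c p (B + s) q := by
    unfold S
    rw [sum_fiberwise_of_maps_to (Ms_anc h hα.le B s)]
  rw [e0]
  unfold S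
  rw [mul_sum]
  apply sum_le_sum
  intro z _
  have e1 : ∀ q ∈ (Ms a c α t w (B + s)).filter (fun q => (q.1 / a ^ s, q.2 / c ^ s) = z),
      wt a c p (B + s) q = wt a c p B z * wt c a (sw p) s (q.2 % c ^ s, q.1 % a ^ s) := by
    intro q hq
    rw [mem_filter] at hq
    rw [wt_tail, hq.2]
    congr 1
    exact (wt_sw a c p s (q.1 % a ^ s, q.2 % c ^ s)).symm
  rw [sum_congr rfl e1, ← mul_sum, mul_comm]
  refine mul_le_mul_of_nonneg_right ?_ (wt_nonneg h _ _)
  refine le_trans ?_ (hC ((t - α * ((z.1 : ℝ) / (a : ℝ) ^ B) - (z.2 : ℝ) / (c : ℝ) ^ B) *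
    ((a : ℝ) ^ B / α)))
  have hnn : ∀ q, 0 ≤ wt c a (sw p) s q := by
    intro q
    have := wt_nonneg h s (q.2, q.1)
    rw [← wt_sw a c p s] at this
    exact this
  have hinj : Set.InjOn (fun q : ℕ × ℕ => (q.2 % c ^ s, q.1 % a ^ s))
      ((Ms a c α t w (B + s)).filter (fun q => (q.1 / a ^ s, q.2 / c ^ s) = z)) := by
    intro q hq q' hq' hqq
    rw [mem_coe, mem_filter] at hq hq'
    simp only [Prod.mk.injEq] at hqq
    have h1 := hq.2.trans hq'.2.symm
    have a1 : q.1 / a ^ s = q'.1 / a ^ s := congrArg Prod.fst h1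
    have a2 : q.2 / c ^ s = q'.2 / c ^ s := congrArg Prod.snd h1
    refine Prod.ext ?_ ?_
    · rw [← Nat.div_add_mod q.1 (a ^ s), ← Nat.div_add_mod q'.1 (a ^ s), a1, hqq.2]
    · rw [← Nat.div_add_mod q.2 (c ^ s), ← Nat.div_add_mod q'.2 (c ^ s), a2, hqq.1]
  rw [← sum_image (f := fun q => wt c a (sw p) s q) hinj]
  refine sum_le_sum_of_subset_of_nonneg ?_ (fun q _ _ => hnn q)
  intro y hy
  rw [mem_image] at hy
  obtain ⟨q, hq, rfl⟩ := hy
  rw [mem_filter, mem_Ms] at hq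
  obtain ⟨⟨-, h3, h4⟩, hqz⟩ := hq
  rw [mem_Ms]
  refine ⟨⟨Nat.mod_lt _ (Nat.pow_pos h.c0), Nat.mod_lt _ (Nat.pow_pos h.a0)⟩, ?_⟩
  have a1 : q.1 / a ^ s = z.1 := congrArg Prod.fst hqz
  have a2 : q.2 / c ^ s = z.2 := congrArg Prod.snd hqz
  have b1 : (q.1 : ℝ) = (a : ℝ) ^ s * z.1 + ((q.1 % a ^ s : ℕ) : ℝ) := by
    rw [← a1]
    exact_mod_cast (Nat.div_add_mod q.1 (a ^ s)).symm
  have b2 : (q.2 : ℝ) = (c : ℝ) ^ s * z.2 + ((q.2 % c ^ s : ℕ) : ℝ) := by
    rw [← a2]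
    exact_mod_cast (Nat.div_add_mod q.2 (c ^ s)).symm
  have hpos : (0 : ℝ) < (a : ℝ) ^ B / α := by positivity
  have haB : (0 : ℝ) < (a : ℝ) ^ B := by positivity
  have has : (0 : ℝ) < (a : ℝ) ^ s := by positivity
  have hcB : (0 : ℝ) < (c : ℝ) ^ B := by positivity
  have hcs : (0 : ℝ) < (c : ℝ) ^ s := by positivity
  rw [pow_add, pow_add] at h3 h4
  unfold Mt
  simp only
  generalize ((q.1 % a ^ s : ℕ) : ℝ) = x at b1 ⊢
  generalize ((q.2 % c ^ s : ℕ) : ℝ) = y at b2 ⊢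
  rw [b1, b2] at h3 h4
  constructor
  · have id1 : (a : ℝ) ^ B / ((c : ℝ) ^ B * α) * (y / (c : ℝ) ^ s) + x / (a : ℝ) ^ s -
        (t - α * ((z.1 : ℝ) / (a : ℝ) ^ B) - (z.2 : ℝ) / (c : ℝ) ^ B) * ((a : ℝ) ^ B / α) =
        (α * (((a : ℝ) ^ s * z.1 + x) / ((a : ℝ) ^ B * (a : ℝ) ^ s)) +
          ((c : ℝ) ^ s * z.2 + y) / ((c : ℝ) ^ B * (c : ℝ) ^ s) - t) * ((a : ℝ) ^ B / α) := by
      field_simp
      ring
    have h5 := mul_lt_mul_of_pos_right h3 hpos
    have h6 : w * (a : ℝ) ^ B / α = w * ((a : ℝ) ^ B / α) := by ring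
    rw [h6, id1]
    exact h5
  · have id1 : (a : ℝ) ^ B / ((c : ℝ) ^ B * α) * ((y + 1) / (c : ℝ) ^ s) + (x + 1) / (a : ℝ) ^ s -
        (t - α * ((z.1 : ℝ) / (a : ℝ) ^ B) - (z.2 : ℝ) / (c : ℝ) ^ B) * ((a : ℝ) ^ B / α) =
        (α * (((a : ℝ) ^ s * z.1 + x + 1) / ((a : ℝ) ^ B * (a : ℝ) ^ s)) +
          ((c : ℝ) ^ s * z.2 + y + 1) / ((c : ℝ) ^ B * (c : ℝ) ^ s) - t) *
            ((a : ℝ) ^ B / α) := by
      field_simp
      ring
    have h5 := mul_lt_mul_of_pos_right h4 hpos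
    have h6 : -(w * (a : ℝ) ^ B / α) = -w * ((a : ℝ) ^ B / α) := by ring
    rw [h6, id1]
    exact h5

/-! ### constants -/

lemma geo1 {r : ℝ} (h0 : 0 ≤ r) (h1 : r < 1) (G : ℕ) : ∑ b ∈ range G, r ^ b ≤ 1 / (1 - r) := by
  rw [le_div_iff₀ (by linarith)]
  have h2 := mul_neg_geom_sum r G
  have h3 : 0 ≤ r ^ G := pow_nonneg h0 G
  linarith

lemma geo2 {r : ℝ} (h0 : 0 ≤ r) (h1 : r < 1) (G L : ℕ) (hG : G ≤ L) :
    ∑ b ∈ range G, r ^ (L - b) ≤ 1 / (1 - r) := by
  have h2 : ∑ b ∈ range G, r ^ (L - b) ≤ ∑ b ∈ range (L + 1), r ^ (L - b) := by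
    apply sum_le_sum_of_subset_of_nonneg
    · intro x hx
      rw [mem_range] at hx ⊢
      omega
    · intro x _ _
      exact pow_nonneg h0 _
  have h3 : ∑ b ∈ range (L + 1), r ^ (L - b) = ∑ b ∈ range (L + 1), r ^ b := by
    have := sum_range_reflect (fun b => r ^ b) (L + 1)
    simpa using this
  rw [h3] at h2
  exact h2.trans (geo1 h0 h1 _)

lemma lam_pos (h : Good a c p lam) : 0 < lam := by
  by_contra hcon
  push Not at hcon
  have h1 := h.row 0 h.c0
  have h2 : ∑ i ∈ range a, p (i, 0) ≤ 0 :=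
    sum_nonpos fun i _ => (h.le _).trans hcon
  rw [h1] at h2
  have := h.cR
  have : (0 : ℝ) < 1 / c := by positivity
  linarith

lemma exists_sg (h : Good a c p lam) (hlt : (c : ℝ) * lam < 1) :
    ∃ sg : ℝ, 0 < sg ∧ (a : ℝ) ^ sg = 1 / (c * lam) := by
  have hl := lam_pos h
  have hc := h.cR
  have ha : (1 : ℝ) < a := by exact_mod_cast (by have := h.ha; omega : 1 < a)
  have h1 : 1 < 1 / ((c : ℝ) * lam) := by
    rw [lt_div_iff₀ (by positivity)]
    linarith
  refine ⟨Real.logb a (1 / (c * lam)), Real.logb_pos ha h1, ?_⟩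
  exact Real.rpow_logb (by linarith) ha.ne' (by linarith)

lemma exists_lev (κ w : ℝ) (hw1 : w ≤ 1) (k : ℕ) :
    ∃ b : ℕ, κ ^ b * w ≤ 1 ∧ b ≤ k ∧ (b = k ∨ 1 < κ ^ (b + 1) * w) := by
  classical
  set b := Nat.findGreatest (fun b => κ ^ b * w ≤ 1) k with hb
  have hbk : b ≤ k := Nat.findGreatest_le k
  have hb1 : κ ^ b * w ≤ 1 := by
    have := Nat.findGreatest_spec (P := fun b => κ ^ b * w ≤ 1) (Nat.zero_le k)
      (by simpa using hw1)
    exact this
  refine ⟨b, hb1, hbk, ?_⟩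
  by_contra hcon
  push Not at hcon
  rcases Nat.lt_or_ge b k with hlt | hge
  · exact Nat.findGreatest_is_greatest (P := fun b => κ ^ b * w ≤ 1)
      (Nat.lt_succ_self b) hlt hcon.2
  · exact hcon.1 (le_antisymm hbk hge)

/-- the level at which the strip is as wide as the rectangles are high -/
lemma finish (h : Good a c p lam) {α t w Q : ℝ} (hα : 0 ≤ α) (_hw : 0 < w) (k h0 : ℕ)
    (hk : h0 ≤ k) (h1 : 1 ≤ (c : ℝ) * ((c : ℝ) ^ h0 * w))
    (hS : S a c p α t w h0 ≤ 5 * Real.exp Q * (1 / c) ^ h0) :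
    S a c p α t w k ≤ 5 * Real.exp Q * c * w := by
  have hc := h.cR
  obtain ⟨s, rfl⟩ : ∃ s, k = h0 + s := ⟨k - h0, by omega⟩
  have h2 := S_desc (t := t) (w := w) h hα h0 s
  refine h2.trans (hS.trans ?_)
  have h3 : 0 ≤ 5 * Real.exp Q * (1 / (c : ℝ)) ^ h0 := by positivity
  calc 5 * Real.exp Q * (1 / (c : ℝ)) ^ h0 ≤
        5 * Real.exp Q * (1 / (c : ℝ)) ^ h0 * ((c : ℝ) * ((c : ℝ) ^ h0 * w)) :=
        le_mul_of_one_le_right h3 h1
    _ = 5 * Real.exp Q * c * w * ((1 / (c : ℝ)) ^ h0 * (c : ℝ) ^ h0) := by ring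
    _ = 5 * Real.exp Q * c * w := by
      rw [← mul_pow, one_div, inv_mul_cancel₀ hc.ne', one_pow, mul_one]

/-- **Steep strips** `|x + β y - t| < w`, `0 ≤ β ≤ a / c`; here the rows are longer, `c < a`,
and the roles of the coordinates are exchanged. -/
lemma steep (h : Good a c p lam) (hac : c < a) (hlt : (c : ℝ) * lam < 1) :
    ∃ K : ℝ, 0 < K ∧ ∀ (β t w : ℝ) (k : ℕ), 0 ≤ β → β ≤ (a : ℝ) / c → 0 < w →
      1 ≤ (c : ℝ) ^ k * w → S a c p β t w k ≤ K * w := by
  obtain ⟨sg, hsg0, hsg⟩ := exists_sg h hlt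
  have hl := lam_pos h
  have hc := h.cR
  have ha := h.aR
  have hth0 : 0 < (c : ℝ) * lam := by positivity
  have hca : (c : ℝ) / a < 1 := by
    rw [div_lt_one ha]
    exact_mod_cast hac
  set r : ℝ := ((c : ℝ) / a) ^ sg with hr
  have hr0 : 0 ≤ r := by positivity
  have hr1 : r < 1 := Real.rpow_lt_one (by positivity) hca hsg0
  set Q : ℝ := 6 * (1 / (1 - c * lam)) + (6 + c) * (((a : ℝ) * a) ^ sg * (1 / (1 - r))) with hQ
  have hp1 : 0 < 1 - (c : ℝ) * lam := by linarith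
  have hp2 : 0 < 1 - r := by linarith
  have hQ0 : 0 ≤ Q := by positivity
  refine ⟨5 * Real.exp Q * c + 1, by positivity, ?_⟩
  intro β t w k hβ hβ1 hw hk
  rcases lt_or_ge 1 w with hw1 | hw1
  · have h1 := S_le_one (t := t) (w := w) h hβ k
    have : 0 ≤ 5 * Real.exp Q * c * w := by positivity
    nlinarith
  obtain ⟨h0, hh1, hhk, hh2⟩ := exists_lev (c : ℝ) w hw1 k
  have hh3 : 1 ≤ (c : ℝ) * ((c : ℝ) ^ h0 * w) := by
    have e : (c : ℝ) ^ (h0 + 1) * w = c * ((c : ℝ) ^ h0 * w) := by rw [pow_succ]; ring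
    rcases hh2 with hh2 | hh2
    · rw [← hh2] at hk
      have : (1 : ℝ) ≤ c := by exact_mod_cast h.c0
      nlinarith
    · rw [← e]
      exact hh2.le
  have hsum : ∀ G : ℕ, G ≤ h0 → ∑ b ∈ range G, del a c (c * lam) sg β b ≤ Q := by
    intro G _
    have e1 : ∀ b ∈ range G, del a c (c * lam) sg β b ≤
        6 * (c * lam) ^ b + (6 + c) * (((a : ℝ) * a) ^ sg * r ^ b) := by
      intro b _
      unfold del
      have e2 : ((a : ℝ) * c * β * ((c : ℝ) / a) ^ b) ^ sg ≤ ((a : ℝ) * a) ^ sg * r ^ b := by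
        rw [Real.mul_rpow (by positivity) (by positivity)]
        have e3 : (((c : ℝ) / a) ^ b) ^ sg = r ^ b := by
          rw [hr, ← Real.rpow_natCast, ← Real.rpow_mul (by positivity), mul_comm,
            Real.rpow_mul (by positivity), Real.rpow_natCast]
        rw [e3]
        refine mul_le_mul_of_nonneg_right ?_ (by positivity)
        refine Real.rpow_le_rpow (by positivity) ?_ hsg0.le
        have e4 : (a : ℝ) * c * β ≤ a * c * (a / c) := by gcongr
        have e5 : (a : ℝ) * c * (a / c) = a * a := by field_simp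
        linarith
      have : (0 : ℝ) ≤ 6 + c := by positivity
      have := mul_le_mul_of_nonneg_left e2 this
      linarith
    refine (sum_le_sum e1).trans ?_
    rw [sum_add_distrib, ← mul_sum, ← mul_sum, ← mul_sum]
    have g1 := geo1 hth0.le hlt G
    have g2 := geo1 hr0 hr1 G
    rw [hQ]
    gcongr
  have hS := thin (t := t) h rfl hth0 hsg hsg0 hβ hw h0 h0 hh1 hsum hQ0
  rcases hS with hS | ⟨hS, _⟩
  · have := finish h hβ hw k h0 hhk hh3 hS
    linarith
  · omega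

/-- **Shallow strips** `|α x + y - t| < w`, `0 ≤ α ≤ 1`. -/
lemma shallow (h : Good a c p lam) (h' : Good c a (sw p) lam) (hac : a < c)
    (hlt : (c : ℝ) * lam < 1) :
    ∃ K : ℝ, 0 < K ∧ ∀ (α t w : ℝ) (k : ℕ), 0 ≤ α → α ≤ 1 → 0 < w →
      1 ≤ (a : ℝ) ^ k * w → S a c p α t w k ≤ K * w := by
  obtain ⟨sg, hsg0, hsg⟩ := exists_sg h hlt
  have hl := lam_pos h
  have hc := h.cR
  have ha := h.aR
  have hac' : (a : ℝ) < c := by exact_mod_cast hac
  obtain ⟨K', hK', hst⟩ := steep h' hac (by nlinarith)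
  have hth0 : 0 < (c : ℝ) * lam := by positivity
  have hca : (a : ℝ) / c < 1 := by
    rw [div_lt_one hc]
    exact hac'
  have ha1 : (1 : ℝ) ≤ a := by exact_mod_cast h.a0
  have hc1 : (1 : ℝ) ≤ c := by exact_mod_cast h.c0
  set r : ℝ := ((a : ℝ) / c) ^ sg with hr
  have hr0 : 0 ≤ r := by positivity
  have hr1 : r < 1 := Real.rpow_lt_one (by positivity) hca hsg0
  set Q : ℝ := 6 * (1 / (1 - c * lam)) + (6 + c) * (((a : ℝ) * c) ^ sg * (1 / (1 - r))) with hQ
  have hp1 : 0 < 1 - (c : ℝ) * lam := by linarith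
  have hp2 : 0 < 1 - r := by linarith
  have hQ0 : 0 ≤ Q := by positivity
  refine ⟨5 * Real.exp Q * c + K' * Real.exp Q * (c / a) + 1, by positivity, ?_⟩
  intro α t w k hα hα1 hw hk
  have hz1 : 0 ≤ 5 * Real.exp Q * c * w := by positivity
  have hz2 : 0 ≤ K' * Real.exp Q * (c / a) * w := by positivity
  rcases lt_or_ge 1 w with hw1 | hw1
  · have h1 := S_le_one (t := t) (w := w) h hα k
    nlinarith
  have hkc : 1 ≤ (c : ℝ) ^ k * w := by
    have : (a : ℝ) ^ k ≤ c ^ k := pow_le_pow_left₀ ha.le hac'.le k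
    nlinarith
  obtain ⟨h0, hh1, hhk, hh2⟩ := exists_lev (c : ℝ) w hw1 k
  have hh3 : 1 ≤ (c : ℝ) * ((c : ℝ) ^ h0 * w) := by
    have e : (c : ℝ) ^ (h0 + 1) * w = c * ((c : ℝ) ^ h0 * w) := by rw [pow_succ]; ring
    rcases hh2 with hh2 | hh2
    · rw [← hh2] at hkc
      nlinarith
    · rw [← e]
      exact hh2.le
  obtain ⟨L, hL1, hLk, hL2⟩ := exists_lev ((c : ℝ) / a) α hα1 k
  have hsum : ∀ G : ℕ, G ≤ L → ∑ b ∈ range G, del a c (c * lam) sg α b ≤ Q := by
    intro G hG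
    have e1 : ∀ b ∈ range G, del a c (c * lam) sg α b ≤
        6 * (c * lam) ^ b + (6 + c) * (((a : ℝ) * c) ^ sg * r ^ (L - b)) := by
      intro b hb
      rw [mem_range] at hb
      unfold del
      have e2 : ((a : ℝ) * c * α * ((c : ℝ) / a) ^ b) ^ sg ≤
          ((a : ℝ) * c) ^ sg * r ^ (L - b) := by
        rw [mul_assoc ((a : ℝ) * c), Real.mul_rpow (by positivity) (by positivity)]
        have e3 : (((a : ℝ) / c) ^ (L - b)) ^ sg = r ^ (L - b) := by
          rw [hr, ← Real.rpow_natCast, ← Real.rpow_mul (by positivity), mul_comm,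
            Real.rpow_mul (by positivity), Real.rpow_natCast]
        rw [← e3]
        refine mul_le_mul_of_nonneg_left ?_ (by positivity)
        refine Real.rpow_le_rpow (by positivity) ?_ hsg0.le
        have e4 : ((c : ℝ) / a) ^ b = ((c : ℝ) / a) ^ L * ((a : ℝ) / c) ^ (L - b) := by
          have e5 : ((c : ℝ) / a) ^ L = ((c : ℝ) / a) ^ b * ((c : ℝ) / a) ^ (L - b) := by
            rw [← pow_add]
            congr 1
            omega
          have e6 : ((c : ℝ) / a) ^ (L - b) * ((a : ℝ) / c) ^ (L - b) = 1 := by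
            rw [← mul_pow]
            have : (c : ℝ) / a * (a / c) = 1 := by field_simp
            rw [this, one_pow]
          rw [e5, mul_assoc, e6, mul_one]
        rw [e4]
        have e7 : (0 : ℝ) ≤ ((a : ℝ) / c) ^ (L - b) := by positivity
        calc α * (((c : ℝ) / a) ^ L * ((a : ℝ) / c) ^ (L - b))
            = (((c : ℝ) / a) ^ L * α) * ((a : ℝ) / c) ^ (L - b) := by ring
          _ ≤ 1 * ((a : ℝ) / c) ^ (L - b) := mul_le_mul_of_nonneg_right hL1 e7
          _ = _ := one_mul _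
      have : (0 : ℝ) ≤ 6 + c := by positivity
      have := mul_le_mul_of_nonneg_left e2 this
      linarith
    refine (sum_le_sum e1).trans ?_
    rw [sum_add_distrib, ← mul_sum, ← mul_sum, ← mul_sum]
    have g1 := geo1 hth0.le hlt G
    have g2 := geo2 hr0 hr1 G L hG
    rw [hQ]
    gcongr
  have hS := thin (t := t) h rfl hth0 hsg hsg0 hα hw L h0 hh1 hsum hQ0
  rcases hS with hS | ⟨hLh, hα0, hS⟩
  · have := finish h hα hw k h0 hhk hh3 hS
    have hw' := hw.le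
    linarith
  · -- zoom in
    have hL3 : 1 < ((c : ℝ) / a) ^ (L + 1) * α := by
      rcases hL2 with hL2 | hL2
      · omega
      · exact hL2
    obtain ⟨s, rfl⟩ : ∃ s, k = L + s := ⟨k - L, by omega⟩
    have haL : (0 : ℝ) < (a : ℝ) ^ L := by positivity
    have hcL : (0 : ℝ) < (c : ℝ) ^ L := by positivity
    have hL4 : (a : ℝ) ^ L / α ≤ (c : ℝ) ^ L * (c / a) := by
      rw [div_le_iff₀ hα0]
      have e1 : ((c : ℝ) / a) ^ (L + 1) * α = ((c : ℝ) ^ L * (c / a) * α) / (a : ℝ) ^ L := by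
        rw [pow_succ, div_pow]
        ring
      rw [e1, lt_div_iff₀ haL, one_mul] at hL3
      exact hL3.le
    have hz := zoom (t := t) (w := w) (C := K' * (w * (a : ℝ) ^ L / α)) h hα0 L s (by
      intro t'
      refine hst _ t' _ s (by positivity) ?_ (by positivity) ?_
      · rw [div_le_iff₀ (by positivity)]
        rw [div_le_iff₀ hα0] at hL4
        linarith
      · have e1 : (a : ℝ) ^ s * (w * (a : ℝ) ^ L / α) = ((a : ℝ) ^ (L + s) * w) / α := by
          rw [pow_add]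
          ring
        rw [e1, le_div_iff₀ hα0]
        linarith)
    refine hz.trans ?_
    have e2 : w * (a : ℝ) ^ L / α ≤ w * ((c : ℝ) ^ L * (c / a)) := by
      rw [mul_div_assoc]
      exact mul_le_mul_of_nonneg_left hL4 hw.le
    have e3 : K' * (w * (a : ℝ) ^ L / α) * S a c p α t w L ≤
        K' * (w * ((c : ℝ) ^ L * (c / a))) * (Real.exp Q * (1 / c) ^ L) := by
      refine mul_le_mul (mul_le_mul_of_nonneg_left e2 hK'.le) hS (S_nonneg h _ _ _ _)
        (by positivity)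
    have e4 : K' * (w * ((c : ℝ) ^ L * (c / a))) * (Real.exp Q * (1 / c) ^ L) =
        K' * Real.exp Q * (c / a) * w * ((1 / (c : ℝ)) ^ L * (c : ℝ) ^ L) := by ring
    have e5 : (1 / (c : ℝ)) ^ L * (c : ℝ) ^ L = 1 := by
      rw [← mul_pow, one_div, inv_mul_cancel₀ hc.ne', one_pow]
    rw [e4, e5, mul_one] at e3
    have hw' := hw.le
    linarith

end Pool.Agent.Y870.TB
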