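import Pool.Agent.W710.Tube.Geom
import Pool.Agent.W710.Tube.Exist

/-!
Weighted self-affine carpets with `a` columns and `c` rows: the weight of the rectangles of level
`k` that meet a thin strip `|α x + y - t| < w`.
-/

set_option autoImplicit false

namespace Pool.Agent.Y870.TB

open Finset
open Pool.Agent.W710.Tube (card_le_nat low_le up_le)

/-- the weight of the rectangle `q` of level `k` -/
noncomputable def wt (a c : ℕ) (p : ℕ × ℕ → ℝ) : ℕ → ℕ × ℕ → ℝ
  | 0, q => if q = (0, 0) then 1 else 0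
  | k + 1, q => wt a c p k (q.1 / a, q.2 / c) * p (q.1 % a, q.2 % c)

/-- weights of the cells with uniform marginal on the `c` rows, at most `lam` per cell -/
structure Good (a c : ℕ) (p : ℕ × ℕ → ℝ) (lam : ℝ) : Prop where
  ha : 2 ≤ a
  hc : 2 ≤ c
  nonneg : ∀ d, 0 ≤ p d
  le : ∀ d, p d ≤ lam
  row : ∀ j < c, ∑ i ∈ range a, p (i, j) = 1 / c

variable {a c : ℕ} {p : ℕ × ℕ → ℝ} {lam : ℝ}

lemma Good.a0 (h : Good a c p lam) : 0 < a := by have := h.ha; omega

lemma Good.c0 (h : Good a c p lam) : 0 < c := by have := h.hc; omega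

lemma Good.aR (h : Good a c p lam) : (0 : ℝ) < a := by exact_mod_cast h.a0

lemma Good.cR (h : Good a c p lam) : (0 : ℝ) < c := by exact_mod_cast h.c0

lemma Good.lam0 (h : Good a c p lam) : 0 ≤ lam := (h.nonneg (0, 0)).trans (h.le _)

lemma wt_nonneg (h : Good a c p lam) (k : ℕ) : ∀ q, 0 ≤ wt a c p k q := by
  induction k with
  | zero =>
    intro q
    unfold wt
    split_ifs
    · exact zero_le_one
    · exact le_rfl
  | succ k ih =>
    intro q
    exact mul_nonneg (ih _) (h.nonneg _)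

lemma wt_succ (k : ℕ) (q : ℕ × ℕ) :
    wt a c p (k + 1) q = wt a c p k (q.1 / a, q.2 / c) * p (q.1 % a, q.2 % c) := rfl

/-- the weight of the descendants in a given row -/
lemma fib_row (h : Good a c p lam) (b r : ℕ) : ∀ (u v : ℕ) (s : Finset (ℕ × ℕ)),
    (∀ q ∈ s, q.1 / a ^ r = u) → (∀ q ∈ s, q.2 = v) →
    ∑ q ∈ s, wt a c p (b + r) q ≤ wt a c p b (u, v / c ^ r) * (1 / c) ^ r := by
  have hc := h.cR
  induction r with
  | zero =>
    intro u v s h1 h2
    have hs : s ⊆ {(u, v)} := by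
      intro q hq
      rw [mem_singleton]
      have e1 := h1 q hq
      rw [pow_zero, Nat.div_one] at e1
      exact Prod.ext e1 (h2 q hq)
    refine (sum_le_sum_of_subset_of_nonneg hs (fun q _ _ => wt_nonneg h _ q)).trans ?_
    simp
  | succ r ih =>
    intro u v s h1 h2
    have e1 : ∑ q ∈ s, wt a c p (b + (r + 1)) q =
        ∑ z ∈ s.image (fun q => (q.1 / a, q.2 / c)),
          ∑ q ∈ s.filter (fun q => (q.1 / a, q.2 / c) = z), wt a c p (b + (r + 1)) q :=
      (sum_fiberwise_of_maps_to (fun q hq => mem_image_of_mem _ hq) _).symm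
    rw [e1]
    have e2 : ∀ z ∈ s.image (fun q => (q.1 / a, q.2 / c)),
        ∑ q ∈ s.filter (fun q => (q.1 / a, q.2 / c) = z), wt a c p (b + (r + 1)) q ≤
          wt a c p (b + r) z * (1 / c) := by
      intro z _
      have e3 : ∀ q ∈ s.filter (fun q => (q.1 / a, q.2 / c) = z),
          wt a c p (b + (r + 1)) q = wt a c p (b + r) z * p (q.1 % a, v % c) := by
        intro q hq
        rw [mem_filter] at hq
        rw [← add_assoc, wt_succ, hq.2, h2 q hq.1]
      rw [sum_congr rfl e3, ← mul_sum]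
      refine mul_le_mul_of_nonneg_left ?_ (wt_nonneg h _ _)
      rw [← h.row (v % c) (Nat.mod_lt _ h.c0)]
      have e4 : ∑ q ∈ s.filter (fun q => (q.1 / a, q.2 / c) = z), p (q.1 % a, v % c) =
          ∑ i ∈ (s.filter (fun q => (q.1 / a, q.2 / c) = z)).image (fun q => q.1 % a),
            p (i, v % c) := by
        rw [sum_image]
        intro q hq q' hq' hqq
        rw [mem_coe, mem_filter] at hq hq'
        have a1 : q.1 / a = q'.1 / a := by
          have := hq.2.trans hq'.2.symm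
          exact congrArg Prod.fst this
        simp only at hqq
        refine Prod.ext ?_ ((h2 q hq.1).trans (h2 q' hq'.1).symm)
        rw [← Nat.div_add_mod q.1 a, ← Nat.div_add_mod q'.1 a, a1, hqq]
      rw [e4]
      refine sum_le_sum_of_subset_of_nonneg ?_ (fun i _ _ => h.nonneg _)
      intro i hi
      rw [mem_image] at hi
      obtain ⟨q, _, rfl⟩ := hi
      exact mem_range.2 (Nat.mod_lt _ h.a0)
    refine (sum_le_sum e2).trans ?_
    rw [← sum_mul]
    have e5 := ih u (v / c) (s.image (fun q => (q.1 / a, q.2 / c))) (by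
      intro z hz
      rw [mem_image] at hz
      obtain ⟨q, hq, rfl⟩ := hz
      simp only
      rw [Nat.div_div_eq_div_mul, ← pow_succ']
      exact h1 q hq) (by
      intro z hz
      rw [mem_image] at hz
      obtain ⟨q, hq, rfl⟩ := hz
      simp only
      rw [h2 q hq])
    rw [Nat.div_div_eq_div_mul, ← pow_succ'] at e5
    refine (mul_le_mul_of_nonneg_right e5 (by positivity)).trans (le_of_eq ?_)
    ring

/-- the weight of all descendants -/
lemma fib_all (h : Good a c p lam) (b r u v : ℕ) (s : Finset (ℕ × ℕ))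
    (h1 : ∀ q ∈ s, q.1 / a ^ r = u) (h2 : ∀ q ∈ s, q.2 / c ^ r = v) :
    ∑ q ∈ s, wt a c p (b + r) q ≤ wt a c p b (u, v) := by
  have hc := h.cR
  have e1 : ∑ q ∈ s, wt a c p (b + r) q =
      ∑ z ∈ s.image Prod.snd, ∑ q ∈ s.filter (fun q => q.2 = z), wt a c p (b + r) q :=
    (sum_fiberwise_of_maps_to (fun q hq => mem_image_of_mem _ hq) _).symm
  rw [e1]
  have e2 : ∀ z ∈ s.image Prod.snd,
      ∑ q ∈ s.filter (fun q => q.2 = z), wt a c p (b + r) q ≤
        wt a c p b (u, v) * (1 / c) ^ r := by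
    intro z hz
    rw [mem_image] at hz
    obtain ⟨q0, hq0, rfl⟩ := hz
    have := fib_row h b r u q0.2 (s.filter (fun q => q.2 = q0.2))
      (fun q hq => h1 q (mem_filter.1 hq).1) (fun q hq => (mem_filter.1 hq).2)
    rw [h2 q0 hq0] at this
    exact this
  refine (sum_le_sum e2).trans ?_
  rw [sum_const, nsmul_eq_mul]
  have hcard : ((s.image Prod.snd).card : ℝ) ≤ (c : ℝ) ^ r := by
    have : (s.image Prod.snd) ⊆ Ico (c ^ r * v) (c ^ r * v + c ^ r) := by
      intro z hz
      rw [mem_image] at hz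
      obtain ⟨q, hq, rfl⟩ := hz
      have e3 := h2 q hq
      have e4 := Nat.div_add_mod q.2 (c ^ r)
      have e5 := Nat.mod_lt q.2 (Nat.pow_pos h.c0 : 0 < c ^ r)
      rw [e3] at e4
      rw [mem_Ico]
      constructor
      · linarith [Nat.zero_le (q.2 % c ^ r)]
      · linarith
    have h3 := card_le_card this
    rw [Nat.card_Ico, Nat.add_sub_cancel_left] at h3
    exact_mod_cast h3
  have hw := wt_nonneg h b (u, v)
  calc ((s.image Prod.snd).card : ℝ) * (wt a c p b (u, v) * (1 / c) ^ r)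
      ≤ (c : ℝ) ^ r * (wt a c p b (u, v) * (1 / c) ^ r) :=
        mul_le_mul_of_nonneg_right hcard (by positivity)
    _ = wt a c p b (u, v) := by
      rw [one_div, inv_pow]
      field_simp

/-- the weight of one descendant -/
lemma wt_le_lam (h : Good a c p lam) (b s : ℕ) : ∀ q,
    wt a c p (b + s) q ≤ lam ^ s * wt a c p b (q.1 / a ^ s, q.2 / c ^ s) := by
  induction s with
  | zero => intro q; simp
  | succ s ih =>
    intro q
    have h1 := ih (q.1 / a, q.2 / c)
    simp only [Nat.div_div_eq_div_mul, ← pow_succ'] at h1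
    have h2 := h.le (q.1 % a, q.2 % c)
    have h3 := wt_nonneg h (b + s) (q.1 / a, q.2 / c)
    rw [← add_assoc, wt_succ]
    calc wt a c p (b + s) (q.1 / a, q.2 / c) * p (q.1 % a, q.2 % c)
        ≤ wt a c p (b + s) (q.1 / a, q.2 / c) * lam := mul_le_mul_of_nonneg_left h2 h3
      _ ≤ (lam ^ s * wt a c p b (q.1 / a ^ (s + 1), q.2 / c ^ (s + 1))) * lam :=
          mul_le_mul_of_nonneg_right h1 h.lam0
      _ = lam ^ (s + 1) * wt a c p b (q.1 / a ^ (s + 1), q.2 / c ^ (s + 1)) := by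
          rw [pow_succ]; ring

/-! ### strips -/

/-- the rectangle `[u, u+1] / a ^ b × [v, v+1] / c ^ b` meets the strip `|α x + y - t| < w` -/
def Mt (a c : ℕ) (α t w : ℝ) (b : ℕ) (q : ℕ × ℕ) : Prop :=
  α * ((q.1 : ℝ) / (a : ℝ) ^ b) + (q.2 : ℝ) / (c : ℝ) ^ b - t < w ∧
  -w < α * (((q.1 : ℝ) + 1) / (a : ℝ) ^ b) + ((q.2 : ℝ) + 1) / (c : ℝ) ^ b - t

open Classical in
/-- the rectangles of level `b` that meet the strip -/
noncomputable def Ms (a c : ℕ) (α t w : ℝ) (b : ℕ) : Finset (ℕ × ℕ) :=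
  (range (a ^ b) ×ˢ range (c ^ b)).filter (Mt a c α t w b)

/-- their weight -/
noncomputable def S (a c : ℕ) (p : ℕ × ℕ → ℝ) (α t w : ℝ) (b : ℕ) : ℝ :=
  ∑ q ∈ Ms a c α t w b, wt a c p b q

lemma mem_Ms (α t w : ℝ) (b : ℕ) (q : ℕ × ℕ) :
    q ∈ Ms a c α t w b ↔ (q.1 < a ^ b ∧ q.2 < c ^ b) ∧ Mt a c α t w b q := by
  classical
  unfold Ms
  rw [mem_filter, mem_product, mem_range, mem_range]

lemma S_nonneg (h : Good a c p lam) (α t w : ℝ) (b : ℕ) : 0 ≤ S a c p α t w b :=
  sum_nonneg fun q _ => wt_nonneg h b q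

lemma Ms_anc (h : Good a c p lam) {α t w : ℝ} (hα : 0 ≤ α) (b r : ℕ) :
    ∀ q ∈ Ms a c α t w (b + r), (q.1 / a ^ r, q.2 / c ^ r) ∈ Ms a c α t w b := by
  intro q hq
  rw [mem_Ms] at hq ⊢
  obtain ⟨⟨h1, h2⟩, h3, h4⟩ := hq
  have e1 := mul_le_mul_of_nonneg_left (low_le a q.1 r b h.a0) hα
  have e2 := low_le c q.2 r b h.c0
  have e3 := mul_le_mul_of_nonneg_left (up_le a q.1 r b h.a0) hα
  have e4 := up_le c q.2 r b h.c0
  refine ⟨⟨?_, ?_⟩, ?_, ?_⟩
  · simp only
    rw [Nat.div_lt_iff_lt_mul (Nat.pow_pos h.a0), ← pow_add]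
    exact h1
  · simp only
    rw [Nat.div_lt_iff_lt_mul (Nat.pow_pos h.c0), ← pow_add]
    exact h2
  · simp only
    linarith
  · simp only
    linarith

lemma S_desc (h : Good a c p lam) {α t w : ℝ} (hα : 0 ≤ α) (b r : ℕ) :
    S a c p α t w (b + r) ≤ S a c p α t w b := by
  unfold S
  rw [← sum_fiberwise_of_maps_to (Ms_anc h hα b r)]
  apply sum_le_sum
  intro z _
  refine fib_all h b r z.1 z.2 _ ?_ ?_
  · intro q hq
    rw [mem_filter] at hq
    rw [← hq.2]
  · intro q hq
    rw [mem_filter] at hq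
    rw [← hq.2]

lemma S_zero (h : Good a c p lam) (α t w : ℝ) : S a c p α t w 0 ≤ 1 := by
  unfold S
  have : Ms a c α t w 0 ⊆ {(0, 0)} := by
    intro q hq
    rw [mem_Ms] at hq
    rw [mem_singleton]
    obtain ⟨⟨h1, h2⟩, -⟩ := hq
    rw [pow_zero] at h1 h2
    exact Prod.ext (by simpa using h1) (by simpa using h2)
  refine (sum_le_sum_of_subset_of_nonneg this (fun q _ _ => wt_nonneg h _ q)).trans ?_
  simp [wt]

lemma S_le_one (h : Good a c p lam) {α t w : ℝ} (hα : 0 ≤ α) (b : ℕ) :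
    S a c p α t w b ≤ 1 := by
  have := S_desc (t := t) (w := w) h hα 0 b
  rw [Nat.zero_add] at this
  exact this.trans (S_zero h α t w)

/-- the horizontal line through `η / c ^ (b + 1)` meets the strip above the `x`-cylinder `u` -/
def YC (a c : ℕ) (α t w : ℝ) (b : ℕ) (q : ℕ × ℕ) : Prop :=
  α * ((q.1 : ℝ) / (a : ℝ) ^ b) + (q.2 : ℝ) / (c : ℝ) ^ (b + 1) - t < w ∧
  -w < α * (((q.1 : ℝ) + 1) / (a : ℝ) ^ b) + (q.2 : ℝ) / (c : ℝ) ^ (b + 1) - t

lemma step (h : Good a c p lam) {α t w : ℝ} (hα : 0 < α) (g s : ℕ)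
    (hcw : (c : ℝ) ^ (g + s + 1) * w ≤ 1) (hcα : (c : ℝ) ^ (g + s + 1) * α ≤ (a : ℝ) ^ g)
    (hreg : 2 * w * (a : ℝ) ^ (g + s) ≤ α) :
    S a c p α t w (g + s + 1) ≤
      (1 / c) * (S a c p α t w (g + s) + 6 * (lam ^ s * S a c p α t w g)) := by
  classical
  have haR := h.aR
  have hcR := h.cR
  set b := g + s with hb
  set I := (Ms a c α t w (b + 1)).image (fun q => (q.1 / a, q.2)) with hI
  have c1 : S a c p α t w (b + 1) ≤ ∑ z ∈ I, (1 / c) * wt a c p b (z.1, z.2 / c) := by
    unfold S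
    rw [← sum_fiberwise_of_maps_to (s := Ms a c α t w (b + 1)) (t := I)
      (g := fun q => (q.1 / a, q.2)) (fun q hq => mem_image_of_mem _ hq)]
    apply sum_le_sum
    intro z _
    have := fib_row h b 1 z.1 z.2 ((Ms a c α t w (b + 1)).filter
      (fun q => (q.1 / a, q.2) = z)) (by
        intro q hq
        rw [mem_filter] at hq
        rw [pow_one, ← hq.2]) (by
        intro q hq
        rw [mem_filter] at hq
        rw [← hq.2])
    rw [pow_one, pow_one] at this
    linarith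
  have key : ∀ z ∈ I, ∃ q ∈ Ms a c α t w (b + 1), q.1 / a = z.1 ∧ q.2 = z.2 := by
    intro z hz
    rw [hI, mem_image] at hz
    obtain ⟨q, hq, rfl⟩ := hz
    exact ⟨q, hq, rfl, rfl⟩
  have hlow : ∀ z ∈ I, α * ((z.1 : ℝ) / (a : ℝ) ^ b) + (z.2 : ℝ) / (c : ℝ) ^ (b + 1) - t < w := by
    intro z hz
    obtain ⟨q, hq, h1, h2⟩ := key z hz
    rw [mem_Ms] at hq
    have h3 := hq.2.1
    have h4 := mul_le_mul_of_nonneg_left (low_le a q.1 1 b h.a0) hα.le
    rw [pow_one, h1] at h4
    rw [h2] at h3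
    linarith
  have hup : ∀ z ∈ I, -w < α * (((z.1 : ℝ) + 1) / (a : ℝ) ^ b) +
      ((z.2 : ℝ) + 1) / (c : ℝ) ^ (b + 1) - t := by
    intro z hz
    obtain ⟨q, hq, h1, h2⟩ := key z hz
    rw [mem_Ms] at hq
    have h3 := hq.2.2
    have h4 := mul_le_mul_of_nonneg_left (up_le a q.1 1 b h.a0) hα.le
    rw [pow_one, h1] at h4
    rw [h2] at h3
    linarith
  -- the pairs that do not cross
  have c3 : ∑ z ∈ I.filter (fun z => ¬ YC a c α t w b z), wt a c p b (z.1, z.2 / c) ≤
      S a c p α t w b := by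
    have hinj : Set.InjOn (fun z : ℕ × ℕ => (z.1, z.2 / c))
        (I.filter (fun z => ¬ YC a c α t w b z)) := by
      have aux : ∀ z ∈ I, ∀ z' ∈ I, ¬ YC a c α t w b z' → z.1 = z'.1 → ¬ z.2 < z'.2 := by
        intro z hz z' hz' hx h2 hlt
        apply hx
        refine ⟨hlow z' hz', ?_⟩
        have h3 := hup z hz
        have h4 : ((z.2 : ℝ) + 1) / (c : ℝ) ^ (b + 1) ≤ (z'.2 : ℝ) / (c : ℝ) ^ (b + 1) := by
          apply div_le_div_of_nonneg_right _ (by positivity)
          exact_mod_cast hlt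
        rw [h2] at h3
        linarith
      intro z hz z' hz' hzz
      rw [mem_coe, mem_filter] at hz hz'
      simp only [Prod.mk.injEq] at hzz
      have a1 := aux z hz.1 z' hz'.1 hz'.2 hzz.1
      have a2 := aux z' hz'.1 z hz.1 hz.2 hzz.1.symm
      exact Prod.ext hzz.1 (by omega)
    rw [← sum_image (f := fun z => wt a c p b z) hinj]
    unfold S
    refine sum_le_sum_of_subset_of_nonneg ?_ (fun q _ _ => wt_nonneg h _ q)
    intro z hz
    rw [mem_image] at hz
    obtain ⟨z', hz', rfl⟩ := hz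
    rw [mem_filter] at hz'
    obtain ⟨q, hq, h1, h2⟩ := key z' hz'.1
    have := Ms_anc h hα.le b 1 q hq
    rw [pow_one, pow_one, h1, h2] at this
    exact this
  -- the pairs that cross
  have c4 : ∑ z ∈ I.filter (YC a c α t w b), wt a c p b (z.1, z.2 / c) ≤
      6 * (lam ^ s * S a c p α t w g) := by
    have hmaps : ∀ z ∈ I.filter (YC a c α t w b),
        (z.1 / a ^ s, z.2 / c ^ (s + 1)) ∈ Ms a c α t w g := by
      intro z hz
      rw [mem_filter] at hz
      obtain ⟨q, hq, h1, h2⟩ := key z hz.1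
      have := Ms_anc h hα.le g (s + 1) q (by rw [← add_assoc]; exact hq)
      rw [← h1, ← h2, Nat.div_div_eq_div_mul, ← pow_succ']
      exact this
    rw [← sum_fiberwise_of_maps_to hmaps]
    unfold S
    rw [mul_sum, mul_sum]
    apply sum_le_sum
    intro y _
    set F := (I.filter (YC a c α t w b)).filter
      (fun q => (q.1 / a ^ s, q.2 / c ^ (s + 1)) = y) with hF
    have hFm : ∀ q ∈ F, YC a c α t w b q ∧ q.1 / a ^ s = y.1 := by
      intro q hq
      rw [hF, mem_filter, mem_filter] at hq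
      exact ⟨hq.1.2, congrArg Prod.fst hq.2⟩
    have e1 : F.card ≤ 2 * (F.image Prod.snd).card := by
      apply card_le_mul_card_image
      intro η _
      have e2 : (F.filter (fun q => q.2 = η)).card ≤
          ((F.filter (fun q => q.2 = η)).image Prod.fst).card := by
        rw [card_image_of_injOn]
        intro q hq q' hq' hqq
        rw [mem_coe, mem_filter] at hq hq'
        exact Prod.ext hqq (hq.2.trans hq'.2.symm)
      refine e2.trans (card_le_nat _ 2 ?_)
      intro v hv v' hv'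
      rw [mem_image] at hv hv'
      obtain ⟨q, hq, rfl⟩ := hv
      obtain ⟨q', hq', rfl⟩ := hv'
      rw [mem_filter] at hq hq'
      have h1 := (hFm q hq.1).1.2
      have h2 := (hFm q' hq'.1).1.1
      rw [hq.2] at h1
      rw [hq'.2] at h2
      have h3 : α * (((q'.1 : ℝ) - q.1 - 1) / (a : ℝ) ^ b) < 2 * w := by
        have : α * (((q'.1 : ℝ) - q.1 - 1) / (a : ℝ) ^ b) =
            α * ((q'.1 : ℝ) / (a : ℝ) ^ b) - α * (((q.1 : ℝ) + 1) / (a : ℝ) ^ b) := by ring
        rw [this]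
        linarith
      have h4 : α * ((q'.1 : ℝ) - q.1 - 1) < 2 * w * (a : ℝ) ^ b := by
        have h5 : α * ((q'.1 : ℝ) - q.1 - 1) =
            α * (((q'.1 : ℝ) - q.1 - 1) / (a : ℝ) ^ b) * (a : ℝ) ^ b := by
          field_simp
        rw [h5]
        exact mul_lt_mul_of_pos_right h3 (by positivity)
      have h5 : α * ((q'.1 : ℝ) - q.1 - 1) < α * 1 := by linarith
      have h6 := lt_of_mul_lt_mul_left h5 hα.le
      push_cast
      linarith
    have e3 : (F.image Prod.snd).card ≤ 3 := by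
      apply card_le_nat
      intro v hv v' hv'
      rw [mem_image] at hv hv'
      obtain ⟨q, hq, rfl⟩ := hv
      obtain ⟨q', hq', rfl⟩ := hv'
      obtain ⟨y1, z1⟩ := hFm q hq
      obtain ⟨y2, z2⟩ := hFm q' hq'
      have h1 := y1.2
      have h2 := y2.1
      have h3 := mul_le_mul_of_nonneg_left (low_le a q'.1 s g h.a0) hα.le
      have h4 := mul_le_mul_of_nonneg_left (up_le a q.1 s g h.a0) hα.le
      rw [z2, ← hb] at h3
      rw [z1, ← hb] at h4
      have h5 : α * (((y.1 : ℝ) + 1) / (a : ℝ) ^ g) =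
          α * ((y.1 : ℝ) / (a : ℝ) ^ g) + α / (a : ℝ) ^ g := by ring
      rw [h5] at h4
      have h6 : ((q'.2 : ℝ) - q.2) / (c : ℝ) ^ (b + 1) < 2 * w + α / (a : ℝ) ^ g := by
        rw [sub_div]
        linarith
      rw [div_lt_iff₀ (by positivity)] at h6
      have h7 : α / (a : ℝ) ^ g * (c : ℝ) ^ (b + 1) ≤ 1 := by
        rw [div_mul_eq_mul_div, div_le_one (by positivity)]
        linarith
      push_cast
      nlinarith
    have e4 : (F.card : ℝ) ≤ 6 := by
      have : F.card ≤ 6 := by omega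
      exact_mod_cast this
    have e5 : ∀ q ∈ F, wt a c p b (q.1, q.2 / c) ≤ lam ^ s * wt a c p g y := by
      intro q hq
      have h1 := wt_le_lam h g s (q.1, q.2 / c)
      simp only [Nat.div_div_eq_div_mul, ← pow_succ'] at h1
      rw [hF, mem_filter] at hq
      rw [hq.2] at h1
      exact h1
    have e6 : 0 ≤ lam ^ s * wt a c p g y :=
      mul_nonneg (pow_nonneg h.lam0 _) (wt_nonneg h _ _)
    calc ∑ q ∈ F, wt a c p b (q.1, q.2 / c) ≤ ∑ _q ∈ F, lam ^ s * wt a c p g y := sum_le_sum e5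
      _ = F.card * (lam ^ s * wt a c p g y) := by rw [sum_const, nsmul_eq_mul]
      _ ≤ 6 * (lam ^ s * wt a c p g y) := mul_le_mul_of_nonneg_right e4 e6
  refine c1.trans ?_
  rw [← mul_sum]
  refine mul_le_mul_of_nonneg_left ?_ (by positivity)
  rw [← sum_filter_add_sum_filter_not I (YC a c α t w b)]
  linarith

lemma part2 (h : Good a c p lam) {α t w : ℝ} (hα : 0 ≤ α) (g r : ℕ)
    (hreg : α < 2 * w * (a : ℝ) ^ g) (hr : (c : ℝ) ^ (g + r) * w ≤ 1) :
    S a c p α t w (g + r) ≤ (1 / c) ^ r * (5 * S a c p α t w g) := by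
  classical
  have haR := h.aR
  have hcR := h.cR
  set I := (Ms a c α t w (g + r)).image (fun q => (q.1 / a ^ r, q.2)) with hI
  have c1 : S a c p α t w (g + r) ≤ ∑ z ∈ I, (1 / c) ^ r * wt a c p g (z.1, z.2 / c ^ r) := by
    unfold S
    rw [← sum_fiberwise_of_maps_to (s := Ms a c α t w (g + r)) (t := I)
      (g := fun q => (q.1 / a ^ r, q.2)) (fun q hq => mem_image_of_mem _ hq)]
    apply sum_le_sum
    intro z _
    have := fib_row h g r z.1 z.2 ((Ms a c α t w (g + r)).filter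
      (fun q => (q.1 / a ^ r, q.2) = z)) (by
        intro q hq
        rw [mem_filter] at hq
        rw [← hq.2]) (by
        intro q hq
        rw [mem_filter] at hq
        rw [← hq.2])
    linarith
  have key : ∀ z ∈ I, ∃ q ∈ Ms a c α t w (g + r), q.1 / a ^ r = z.1 ∧ q.2 = z.2 := by
    intro z hz
    rw [hI, mem_image] at hz
    obtain ⟨q, hq, rfl⟩ := hz
    exact ⟨q, hq, rfl, rfl⟩
  have hlow : ∀ z ∈ I, α * ((z.1 : ℝ) / (a : ℝ) ^ g) + (z.2 : ℝ) / (c : ℝ) ^ (g + r) - t < w := by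
    intro z hz
    obtain ⟨q, hq, h1, h2⟩ := key z hz
    rw [mem_Ms] at hq
    have h3 := hq.2.1
    have h4 := mul_le_mul_of_nonneg_left (low_le a q.1 r g h.a0) hα
    rw [h1] at h4
    rw [h2] at h3
    linarith
  have hup : ∀ z ∈ I, -w < α * (((z.1 : ℝ) + 1) / (a : ℝ) ^ g) +
      ((z.2 : ℝ) + 1) / (c : ℝ) ^ (g + r) - t := by
    intro z hz
    obtain ⟨q, hq, h1, h2⟩ := key z hz
    rw [mem_Ms] at hq
    have h3 := hq.2.2
    have h4 := mul_le_mul_of_nonneg_left (up_le a q.1 r g h.a0) hα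
    rw [h1] at h4
    rw [h2] at h3
    linarith
  have hmaps : ∀ z ∈ I, (z.1, z.2 / c ^ r) ∈ Ms a c α t w g := by
    intro z hz
    obtain ⟨q, hq, h1, h2⟩ := key z hz
    have := Ms_anc h hα g r q hq
    rw [h1, h2] at this
    exact this
  have c2 : ∑ z ∈ I, wt a c p g (z.1, z.2 / c ^ r) ≤ 5 * S a c p α t w g := by
    rw [← sum_fiberwise_of_maps_to hmaps]
    unfold S
    rw [mul_sum]
    apply sum_le_sum
    intro y _
    set F := I.filter (fun z => (z.1, z.2 / c ^ r) = y) with hF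
    have e1 : F.card ≤ (F.image Prod.snd).card := by
      rw [card_image_of_injOn]
      intro q hq q' hq' hqq
      rw [mem_coe, hF, mem_filter] at hq hq'
      have a1 := congrArg Prod.fst hq.2
      have a2 := congrArg Prod.fst hq'.2
      simp only at a1 a2
      exact Prod.ext (a1.trans a2.symm) hqq
    have e2 : (F.image Prod.snd).card ≤ 5 := by
      apply card_le_nat
      intro v hv v' hv'
      rw [mem_image] at hv hv'
      obtain ⟨q, hq, rfl⟩ := hv
      obtain ⟨q', hq', rfl⟩ := hv'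
      rw [hF, mem_filter] at hq hq'
      have h1 := hup q hq.1
      have h2 := hlow q' hq'.1
      have a1 := congrArg Prod.fst hq.2
      have a2 := congrArg Prod.fst hq'.2
      simp only at a1 a2
      rw [a1] at h1
      rw [a2] at h2
      have h3 : α / (a : ℝ) ^ g < 2 * w := by
        rw [div_lt_iff₀ (by positivity)]
        exact hreg
      have h4 : α * (((y.1 : ℝ) + 1) / (a : ℝ) ^ g) =
          α * ((y.1 : ℝ) / (a : ℝ) ^ g) + α / (a : ℝ) ^ g := by ring
      rw [h4] at h1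
      have h5 : ((q'.2 : ℝ) - q.2 - 1) / (c : ℝ) ^ (g + r) < 4 * w := by
        have : ((q'.2 : ℝ) - q.2 - 1) / (c : ℝ) ^ (g + r) =
          (q'.2 : ℝ) / (c : ℝ) ^ (g + r) - ((q.2 : ℝ) + 1) / (c : ℝ) ^ (g + r) := by ring
        rw [this]
        linarith
      rw [div_lt_iff₀ (by positivity)] at h5
      push_cast
      nlinarith
    have e4 : (F.card : ℝ) ≤ 5 := by
      have : F.card ≤ 5 := e1.trans e2
      exact_mod_cast this
    have e5 : ∀ q ∈ F, wt a c p g (q.1, q.2 / c ^ r) = wt a c p g y := by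
      intro q hq
      rw [hF, mem_filter] at hq
      rw [hq.2]
    rw [sum_congr rfl e5, sum_const, nsmul_eq_mul]
    exact mul_le_mul_of_nonneg_right e4 (wt_nonneg h _ _)
  refine c1.trans ?_
  rw [← mul_sum]
  exact mul_le_mul_of_nonneg_left c2 (by positivity)

end Pool.Agent.Y870.TB
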